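import Mathlib

/-!
Blueprint for MP_15e61c_co: `c' ≤ 1 / (2 - log |A+B| / log |A-B|)` for all finite `A, B ⊆ ℤ^d`, and an explicit bound.
-/

open scoped Pointwise

namespace Q320.SD

/-- The set `S(a) = {a_i + a_j + (j - i) : 1 ≤ i < j ≤ n}`. -/
def S (n : ℕ) (a : ℕ → ℕ) : Set ℤ :=
  {z | ∃ i j : ℕ, 1 ≤ i ∧ i < j ∧ j ≤ n ∧ z = a i + a j + ((j : ℤ) - i)}

/-- Property `P(c)`. -/
def P (c : ℝ) : Prop := ∃ δ : ℝ, 0 < δ ∧ ∃ n₀ : ℕ, ∀ n : ℕ, n₀ ≤ n → ∀ a : ℕ → ℕ,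
  (∀ i, 1 ≤ i → i ≤ n → (a i : ℝ) ≤ (n : ℝ) ^ c) → δ * (n : ℝ) ^ c ≤ (S n a).ncard

/-- Random homomorphism. Hint: for `x ≠ y` in `D` the number of `r` with `∑ r_i (x_i - y_i) = 0` is `p^(d-1)`;
so the average over `r` of the number of pairs with equal image is `|D| + |D|(|D|-1)/p`; Cauchy-Schwarz
(`|D|² ≤ |image| * #pairs`, e.g. `Finset.card_le_mul_card_image`-type / `sq_sum_le_card_mul_sum_sq`). -/
def TaskHom : Prop := ∀ (d p : ℕ) (_ : Fact p.Prime) (D : Finset (Fin d → ℤ)),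
  (∀ x ∈ D, ∀ y ∈ D, x ≠ y → ∃ i, ¬ (p : ℤ) ∣ x i - y i) →
  ∃ r : Fin d → ZMod p,
    D.card * p ≤ (D.image (fun x => ∑ i, r i * ((x i : ℤ) : ZMod p))).card * (p + D.card)

/-- Covering by translates (greedy / averaging): induction on `k`; if `U` is the uncovered set, some translate of `E`
covers at least `|U| |E| / p ≥ |U| / 3` elements of `U`. -/
def TaskCover : Prop := ∀ (p : ℕ) (_ : NeZero p) (E : Finset (ZMod p)), p ≤ 3 * E.card → ∀ k : ℕ,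
  ∃ T : Finset (ZMod p), T.card ≤ k ∧
    3 ^ k * (Finset.univ.filter (fun z : ZMod p => ∀ τ ∈ T, z - τ ∉ E)).card ≤ 2 ^ k * p

/-- The simplex `{x : Fin d → ℤ | 0 ≤ x_i, ∑ x_i ≤ L}`: sumset has at most (exactly) `C(2L+d, d)` elements, and for each
`k ≤ d`, `k ≤ L` the difference set has at least `C(d,k) C(L,k) C(L+d-k, L)` elements (exactly `k` positive coordinates:
`C(d,k)` supports, `C(L,k)` ways for the positive part, `C(L+d-k,L)` for the negative part). -/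
def TaskSimplex : Prop := ∀ (d L k : ℕ), k ≤ d → k ≤ L → ∃ A : Finset (Fin d → ℤ), A.Nonempty ∧
  (A + A).card ≤ (2 * L + d).choose d ∧
  d.choose k * L.choose k * (L + d - k).choose L ≤ (A - A).card

/-- finite digit set: `g = (α, δ)`: digit `α` of `a_i`, digit `δ` of `i` -/
def TaskRed : Prop := ∀ (b s M : ℕ) (G : Finset (ℤ × ℤ)) (R : Finset ℤ), 2 ≤ b → s < b →
  (∀ g ∈ G, 0 ≤ g.1 ∧ g.1 ≤ M ∧ |g.2| ≤ M) → (∀ i : ℤ, ∃ g ∈ G, ∃ t : ℤ, i = g.2 + b * t) →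
  (∀ g ∈ G, ∀ h ∈ G, g.1 + g.2 + (h.1 - h.2) ∈ R) → R.card ≤ s →
  ∀ c : ℝ, 0 < c → c ≤ 1 → Real.log s + (1 / c - 2) * Real.log b < 0 → ¬ P c

end Q320.SD
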