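import Mathlib
import Pool.Agent.Q320.SD.Stmts

set_option autoImplicit false

open Filter Topology

namespace Q320.SD

/-- digit systems with `m` digits -/
theorem level (b s M : ℕ) (G : Finset (ℤ × ℤ)) (R : Finset ℤ) (hb : 2 ≤ b)
    (hG : ∀ g ∈ G, 0 ≤ g.1 ∧ g.1 ≤ M ∧ |g.2| ≤ M)
    (hres : ∀ i : ℤ, ∃ g ∈ G, ∃ t : ℤ, i = g.2 + b * t)
    (hR : ∀ g ∈ G, ∀ h ∈ G, g.1 + g.2 + (h.1 - h.2) ∈ R) (hs : R.card ≤ s) (m : ℕ) :
    ∃ (Gm : Finset (ℤ × ℤ)) (Rm : Finset ℤ),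
      (∀ g ∈ Gm, 0 ≤ g.1 ∧ g.1 ≤ M * ((b : ℤ) ^ m - 1) ∧ |g.2| ≤ M * ((b : ℤ) ^ m - 1)) ∧
      (∀ i : ℤ, ∃ g ∈ Gm, ∃ t : ℤ, i = g.2 + (b : ℤ) ^ m * t) ∧
      (∀ g ∈ Gm, ∀ h ∈ Gm, g.1 + g.2 + (h.1 - h.2) ∈ Rm) ∧ Rm.card ≤ s ^ m := by
  classical
  induction m with
  | zero =>
    refine ⟨{(0, 0)}, {0}, ?_, ?_, ?_, ?_⟩
    · intro g hg
      rw [Finset.mem_singleton] at hg
      subst hg
      simp
    · intro i
      exact ⟨(0, 0), by simp, i, by simp⟩
    · intro g hg h hh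
      rw [Finset.mem_singleton] at hg hh
      subst hg; subst hh
      simp
    · simp
  | succ m ih =>
    obtain ⟨Gm, Rm, h1, h2, h3, h4⟩ := ih
    have hbm : (1 : ℤ) ≤ (b : ℤ) ^ m := by
      have : (1 : ℤ) ≤ (b : ℤ) := by exact_mod_cast (by omega : 1 ≤ b)
      exact one_le_pow₀ this
    have hb2 : (2 : ℤ) ≤ (b : ℤ) := by exact_mod_cast hb
    have hkey : (M : ℤ) * ((b : ℤ) ^ m - 1) + (b : ℤ) ^ m * M ≤ M * ((b : ℤ) ^ (m + 1) - 1) := by
      have hM : (0 : ℤ) ≤ M := by positivity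
      have : (b : ℤ) ^ m * 2 ≤ (b : ℤ) ^ m * b := by nlinarith
      rw [pow_succ]
      nlinarith
    refine ⟨(Gm ×ˢ G).image (fun x => (x.1.1 + (b : ℤ) ^ m * x.2.1, x.1.2 + (b : ℤ) ^ m * x.2.2)),
      (Rm ×ˢ R).image (fun x => x.1 + (b : ℤ) ^ m * x.2), ?_, ?_, ?_, ?_⟩
    · intro g hg
      simp only [Finset.mem_image, Finset.mem_product] at hg
      obtain ⟨⟨x, y⟩, ⟨hx, hy⟩, rfl⟩ := hg
      obtain ⟨a1, a2, a3⟩ := h1 x hx
      obtain ⟨c1, c2, c3⟩ := hG y hy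
      refine ⟨?_, ?_, ?_⟩
      · simp only
        have := mul_nonneg (by omega : (0 : ℤ) ≤ (b : ℤ) ^ m) c1
        linarith
      · simp only
        have := mul_le_mul_of_nonneg_left c2 (by omega : (0 : ℤ) ≤ (b : ℤ) ^ m)
        linarith
      · simp only
        have e1 : |x.2 + (b : ℤ) ^ m * y.2| ≤ |x.2| + (b : ℤ) ^ m * |y.2| := by
          refine (abs_add_le _ _).trans ?_
          rw [abs_mul, abs_of_nonneg (by omega : (0 : ℤ) ≤ (b : ℤ) ^ m)]
        have := mul_le_mul_of_nonneg_left c3 (by omega : (0 : ℤ) ≤ (b : ℤ) ^ m)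
        linarith
    · intro i
      obtain ⟨g, hg, t, ht⟩ := h2 i
      obtain ⟨g', hg', t', ht'⟩ := hres t
      refine ⟨(g.1 + (b : ℤ) ^ m * g'.1, g.2 + (b : ℤ) ^ m * g'.2), ?_, t', ?_⟩
      · exact Finset.mem_image.2 ⟨(g, g'), Finset.mem_product.2 ⟨hg, hg'⟩, rfl⟩
      · simp only
        rw [ht, ht', pow_succ]
        ring
    · intro g hg h hh
      simp only [Finset.mem_image, Finset.mem_product] at hg hh
      obtain ⟨⟨x, y⟩, ⟨hx, hy⟩, rfl⟩ := hg
      obtain ⟨⟨x', y'⟩, ⟨hx', hy'⟩, rfl⟩ := hh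
      refine Finset.mem_image.2 ⟨(x.1 + x.2 + (x'.1 - x'.2), y.1 + y.2 + (y'.1 - y'.2)),
        Finset.mem_product.2 ⟨h3 x hx x' hx', hR y hy y' hy'⟩, ?_⟩
      simp only
      ring
    · refine Finset.card_image_le.trans ?_
      rw [Finset.card_product, pow_succ]
      exact Nat.mul_le_mul h4 hs

theorem seq (b s M : ℕ) (G : Finset (ℤ × ℤ)) (R : Finset ℤ) (hb : 2 ≤ b)
    (hG : ∀ g ∈ G, 0 ≤ g.1 ∧ g.1 ≤ M ∧ |g.2| ≤ M)
    (hres : ∀ i : ℤ, ∃ g ∈ G, ∃ t : ℤ, i = g.2 + b * t)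
    (hR : ∀ g ∈ G, ∀ h ∈ G, g.1 + g.2 + (h.1 - h.2) ∈ R) (hs : R.card ≤ s) (m n : ℕ) :
    ∃ a : ℕ → ℕ, (∀ i, a i ≤ M * b ^ m) ∧
      (S n a).ncard ≤ s ^ m * (4 * (n / b ^ m + 1 + M) + 1) := by
  classical
  obtain ⟨Gm, Rm, h1, h2, h3, h4⟩ := level b s M G R hb hG hres hR hs m
  choose g hg t ht using h2
  have hbm : 0 < b ^ m := by positivity
  have hbm' : (0 : ℤ) < (b : ℤ) ^ m := by exact_mod_cast hbm
  have hM : (0 : ℤ) ≤ M := by positivity
  refine ⟨fun i => (g i).1.toNat, ?_, ?_⟩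
  · intro i
    have := h1 _ (hg i)
    have h5 : (g i).1 ≤ M * (b : ℤ) ^ m := by nlinarith [this.2.1]
    simp only
    have h6 : ((M * b ^ m : ℕ) : ℤ) = M * (b : ℤ) ^ m := by push_cast; ring
    rw [← h6] at h5
    exact Int.toNat_le.2 h5
  · set T1 : ℕ := n / b ^ m + 1 + M with hT1
    have hT : ∀ i : ℕ, i ≤ n → |t i| ≤ T1 := by
      intro i hi
      have e1 : (b : ℤ) ^ m * |t i| ≤ n + M * (b : ℤ) ^ m := by
        have e2 : (b : ℤ) ^ m * |t i| = |(i : ℤ) - (g i).2| := by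
          have e7 : (i : ℤ) - (g i).2 = (b : ℤ) ^ m * t i := by linarith [ht i]
          rw [e7, abs_mul, abs_of_pos hbm']
        rw [e2]
        refine (abs_sub _ _).trans ?_
        have e3 : |(i : ℤ)| ≤ n := by
          rw [abs_of_nonneg (by positivity)]
          exact_mod_cast hi
        have e4 := (h1 _ (hg i)).2.2
        nlinarith
      have e5 : (n : ℤ) < (b : ℤ) ^ m * ((n / b ^ m : ℕ) + 1) := by
        have := Nat.lt_mul_div_succ n hbm
        exact_mod_cast this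
      have e6 : (b : ℤ) ^ m * |t i| < (b : ℤ) ^ m * (T1 : ℤ) := by
        rw [hT1]
        push_cast
        push_cast at e5
        nlinarith
      exact (lt_of_mul_lt_mul_left e6 hbm'.le).le
    have hsub : S n (fun i => (g i).1.toNat) ⊆
        ((Rm ×ˢ Finset.Icc (-(2 * (T1 : ℤ))) (2 * T1)).image
          (fun x => x.1 + (b : ℤ) ^ m * x.2) : Finset ℤ) := by
      rintro z ⟨i, j, hi, hij, hj, rfl⟩
      rw [Finset.mem_coe, Finset.mem_image]
      refine ⟨((g j).1 + (g j).2 + ((g i).1 - (g i).2), t j - t i), ?_, ?_⟩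
      · rw [Finset.mem_product]
        refine ⟨h3 _ (hg j) _ (hg i), ?_⟩
        have t1 := abs_le.1 (hT i (by omega))
        have t2 := abs_le.1 (hT j hj)
        simp only [Finset.mem_Icc]
        constructor <;> linarith [t1.1, t1.2, t2.1, t2.2]
      · simp only
        rw [Int.toNat_of_nonneg (h1 _ (hg i)).1, Int.toNat_of_nonneg (h1 _ (hg j)).1]
        have hi' := ht i
        have hj' := ht j
        linarith
    refine (Set.ncard_le_ncard hsub (Finset.finite_toSet _)).trans ?_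
    rw [Set.ncard_coe_finset]
    refine Finset.card_image_le.trans ?_
    rw [Finset.card_product, Int.card_Icc]
    refine Nat.mul_le_mul h4 ?_
    omega

theorem taskRed : TaskRed := by
  intro b s M G R hb hsb hG hres hR hs c hc0 hc1 hneg ⟨δ, hδ, n₀, hP⟩
  have hbR : (2 : ℝ) ≤ (b : ℝ) := by exact_mod_cast hb
  have hb0 : (0 : ℝ) < b := by linarith
  have hs1 : 1 ≤ s := by
    obtain ⟨g, hg, -⟩ := hres 0
    have : 0 < R.card := Finset.card_pos.2 ⟨_, hR g hg g hg⟩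
    omega
  have hsR : (0 : ℝ) < s := by exact_mod_cast hs1
  set K : ℝ := (M : ℝ) + 1 with hK
  have hK0 : 0 < K := by positivity
  set ρ : ℝ := s * (b : ℝ) ^ (1 / c - 2) with hρ
  have hρ0 : 0 ≤ ρ := by positivity
  have hρ1 : ρ < 1 := by
    have : ρ = Real.exp (Real.log s + (1 / c - 2) * Real.log b) := by
      rw [hρ, Real.exp_add, Real.exp_log hsR, Real.rpow_def_of_pos hb0]
      congr 1
      rw [mul_comm (Real.log b)]
    rw [this]
    have := Real.exp_lt_exp.2 hneg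
    rwa [Real.exp_zero] at this
  set σ : ℝ := (s : ℝ) / b with hσ
  have hσ0 : 0 ≤ σ := by positivity
  have hσ1 : σ < 1 := by
    rw [hσ, div_lt_one hb0]
    exact_mod_cast hsb
  have hlim : Tendsto (fun m : ℕ => 4 * K ^ (1 / c) * ρ ^ m + (4 * M + 9) * σ ^ m) atTop (𝓝 0) := by
    have l1 := (tendsto_pow_atTop_nhds_zero_of_lt_one hρ0 hρ1).const_mul (4 * K ^ (1 / c))
    have l2 := (tendsto_pow_atTop_nhds_zero_of_lt_one hσ0 hσ1).const_mul ((4 : ℝ) * M + 9)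
    simpa using l1.add l2
  have hev := hlim.eventually (gt_mem_nhds (show 0 < δ * K by positivity))
  obtain ⟨m, hm, hmn⟩ := (hev.and (eventually_ge_atTop n₀)).exists
  -- the length
  set B : ℝ := (b : ℝ) ^ m with hB
  have hB1 : 1 ≤ B := one_le_pow₀ (by linarith)
  have hB0 : 0 < B := by linarith
  set n : ℕ := ⌈(K * B) ^ (1 / c)⌉₊ with hn
  have hc' : 1 ≤ 1 / c := by
    rw [le_div_iff₀ hc0]; linarith
  have hKB1 : 1 ≤ K * B := by
    have : 1 ≤ K := by rw [hK]; have : (0 : ℝ) ≤ M := by positivity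
                       linarith
    nlinarith
  have hnlow : (K * B) ^ (1 / c) ≤ n := Nat.le_ceil _
  have hnup : (n : ℝ) ≤ (K * B) ^ (1 / c) + 1 := (Nat.ceil_lt_add_one (by positivity)).le
  have hBn : K * B ≤ (n : ℝ) ^ c := by
    have h1 : ((K * B) ^ (1 / c)) ^ c ≤ (n : ℝ) ^ c :=
      Real.rpow_le_rpow (by positivity) hnlow hc0.le
    rwa [← Real.rpow_mul (by positivity), one_div_mul_cancel hc0.ne', Real.rpow_one] at h1
  have hn0 : n₀ ≤ n := by
    have h1 : (m : ℝ) ≤ n := by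
      have h2 : (m : ℝ) ≤ B := by
        have : m < b ^ m := Nat.lt_pow_self (by omega)
        rw [hB]
        exact_mod_cast this.le
      have h3 : B ≤ K * B := by
        have : 1 ≤ K := by rw [hK]; have : (0 : ℝ) ≤ M := by positivity
                           linarith
        nlinarith
      have h4 : K * B ≤ (K * B) ^ (1 / c) := by
        calc K * B = (K * B) ^ (1 : ℝ) := (Real.rpow_one _).symm
          _ ≤ _ := Real.rpow_le_rpow_of_exponent_le hKB1 hc'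
      linarith
    have : m ≤ n := by exact_mod_cast h1
    omega
  obtain ⟨a, ha, hSa⟩ := seq b s M G R hb hG hres hR hs m n
  have h1 := hP n hn0 a (by
    intro i _ _
    have h2 : (a i : ℝ) ≤ M * B := by
      have := ha i
      rw [hB]
      exact_mod_cast this
    have h3 : (M : ℝ) * B ≤ K * B := by rw [hK]; nlinarith
    linarith)
  have h2 : ((S n a).ncard : ℝ) ≤ (s : ℝ) ^ m * (4 * (n / B + 1 + M) + 1) := by
    have h3 : ((S n a).ncard : ℝ) ≤ ((s ^ m * (4 * (n / b ^ m + 1 + M) + 1) : ℕ) : ℝ) := by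
      exact_mod_cast hSa
    refine h3.trans ?_
    push_cast
    have h4 : ((n / b ^ m : ℕ) : ℝ) ≤ n / B := by
      have := @Nat.cast_div_le ℝ _ _ _ n (b ^ m)
      rw [hB]
      push_cast at this
      exact this
    gcongr
  have h5 : δ * (K * B) ≤ (s : ℝ) ^ m * (4 * (((K * B) ^ (1 / c) + 1) / B + 1 + M) + 1) := by
    calc δ * (K * B) ≤ δ * (n : ℝ) ^ c := by gcongr
      _ ≤ _ := h1
      _ ≤ _ := h2
      _ ≤ _ := by gcongr
  have h6 : δ * K ≤ 4 * K ^ (1 / c) * ρ ^ m + (4 * M + 9) * σ ^ m := by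
    have e1 : (K * B) ^ (1 / c) = K ^ (1 / c) * B ^ (1 / c) :=
      Real.mul_rpow hK0.le hB0.le
    have e2 : ρ ^ m = (s : ℝ) ^ m * (B ^ (1 / c) / B ^ 2) := by
      rw [hρ, mul_pow]
      congr 1
      rw [← Real.rpow_natCast ((b : ℝ) ^ (1 / c - 2)) m, ← Real.rpow_mul hb0.le, hB,
        ← Real.rpow_natCast b m, ← Real.rpow_mul hb0.le, ← Real.rpow_natCast _ 2,
        ← Real.rpow_mul hb0.le, ← Real.rpow_sub hb0]
      congr 1
      push_cast
      ring
    have e3 : σ ^ m = (s : ℝ) ^ m / B := by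
      rw [hσ, div_pow]
    have e4 : δ * K = δ * (K * B) / B := by
      field_simp
    rw [e4, e2, e3, div_le_iff₀ hB0]
    refine h5.trans ?_
    rw [e1]
    have e5 : (4 * K ^ (1 / c) * ((s : ℝ) ^ m * (B ^ (1 / c) / B ^ 2)) +
        (4 * M + 9) * ((s : ℝ) ^ m / B)) * B =
        (s : ℝ) ^ m * (4 * (K ^ (1 / c) * B ^ (1 / c) / B) + (4 * M + 9)) := by
      field_simp
    rw [e5]
    have e6 : 4 * ((K ^ (1 / c) * B ^ (1 / c) + 1) / B + 1 + M) + 1 ≤
        4 * (K ^ (1 / c) * B ^ (1 / c) / B) + (4 * M + 9) := by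
      rw [add_div]
      have : 1 / B ≤ 1 := by
        rw [div_le_one hB0]; exact hB1
      linarith
    exact mul_le_mul_of_nonneg_left e6 (by positivity)
  linarith

end Q320.SD
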