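import Mathlib
import Pool.Agent.Q320.SD.Stmts
import Pool.Agent.Q320.SD.TRed

set_option autoImplicit false

open Filter Topology
open scoped Pointwise

namespace Q320.SD

theorem append_add {e d : ℕ} (x x' : Fin e → ℤ) (y y' : Fin d → ℤ) :
    Fin.append x y + Fin.append x' y' = Fin.append (x + x') (y + y') := by
  funext i
  refine Fin.addCases (fun i => ?_) (fun i => ?_) i
  · simp only [Pi.add_apply, Fin.append_left]
  · simp only [Pi.add_apply, Fin.append_right]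

theorem append_sub {e d : ℕ} (x x' : Fin e → ℤ) (y y' : Fin d → ℤ) :
    Fin.append x y - Fin.append x' y' = Fin.append (x - x') (y - y') := by
  funext i
  refine Fin.addCases (fun i => ?_) (fun i => ?_) i
  · simp only [Pi.sub_apply, Fin.append_left]
  · simp only [Pi.sub_apply, Fin.append_right]

theorem append_inj {e d : ℕ} : Function.Injective
    (fun x : (Fin e → ℤ) × (Fin d → ℤ) => Fin.append x.1 x.2) := by
  rintro ⟨x, y⟩ ⟨x', y'⟩ h
  simp only at h
  refine Prod.ext ?_ ?_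
  · funext i
    have := congrFun h (Fin.castAdd d i)
    simpa only [Fin.append_left] using this
  · funext i
    have := congrFun h (Fin.natAdd e i)
    simpa only [Fin.append_right] using this

/-- powers of a pair of sets -/
theorem pw (d : ℕ) (A B : Finset (Fin d → ℤ)) (M0 : ℕ) (hA : ∀ x ∈ A, ∀ i, |x i| ≤ M0)
    (hB : ∀ x ∈ B, ∀ i, |x i| ≤ M0) (m : ℕ) :
    ∃ (e : ℕ) (A' B' : Finset (Fin e → ℤ)), (∀ x ∈ A', ∀ i, |x i| ≤ M0) ∧
      (∀ x ∈ B', ∀ i, |x i| ≤ M0) ∧ (A' + B').card ≤ (A + B).card ^ m ∧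
      (A' - B').card = (A - B).card ^ m := by
  classical
  induction m with
  | zero =>
    refine ⟨0, {0}, {0}, ?_, ?_, ?_, ?_⟩
    · intro x _ i; exact i.elim0
    · intro x _ i; exact i.elim0
    · simp
    · simp
  | succ m ih =>
    obtain ⟨e, A', B', h1, h2, h3, h4⟩ := ih
    refine ⟨e + d, (A' ×ˢ A).image (fun x => Fin.append x.1 x.2),
      (B' ×ˢ B).image (fun x => Fin.append x.1 x.2), ?_, ?_, ?_, ?_⟩
    · intro z hz i
      obtain ⟨⟨x, y⟩, hxy, rfl⟩ := Finset.mem_image.1 hz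
      rw [Finset.mem_product] at hxy
      refine Fin.addCases (fun i => ?_) (fun i => ?_) i
      · simpa only [Fin.append_left] using h1 x hxy.1 i
      · simpa only [Fin.append_right] using hA y hxy.2 i
    · intro z hz i
      obtain ⟨⟨x, y⟩, hxy, rfl⟩ := Finset.mem_image.1 hz
      rw [Finset.mem_product] at hxy
      refine Fin.addCases (fun i => ?_) (fun i => ?_) i
      · simpa only [Fin.append_left] using h2 x hxy.1 i
      · simpa only [Fin.append_right] using hB y hxy.2 i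
    · have hsub : (A' ×ˢ A).image (fun x => Fin.append x.1 x.2) +
          (B' ×ˢ B).image (fun x => Fin.append x.1 x.2) ⊆
          ((A' + B') ×ˢ (A + B)).image (fun x => Fin.append x.1 x.2) := by
        intro z hz
        obtain ⟨u, hu, v, hv, rfl⟩ := Finset.mem_add.1 hz
        obtain ⟨⟨x, y⟩, hxy, rfl⟩ := Finset.mem_image.1 hu
        obtain ⟨⟨x', y'⟩, hxy', rfl⟩ := Finset.mem_image.1 hv
        rw [Finset.mem_product] at hxy hxy'
        refine Finset.mem_image.2 ⟨(x + x', y + y'), Finset.mem_product.2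
          ⟨Finset.add_mem_add hxy.1 hxy'.1, Finset.add_mem_add hxy.2 hxy'.2⟩, ?_⟩
        simp only
        rw [append_add]
      refine (Finset.card_le_card hsub).trans (Finset.card_image_le.trans ?_)
      rw [Finset.card_product, pow_succ]
      exact Nat.mul_le_mul_right _ h3
    · have heq : (A' ×ˢ A).image (fun x => Fin.append x.1 x.2) -
          (B' ×ˢ B).image (fun x => Fin.append x.1 x.2) =
          ((A' - B') ×ˢ (A - B)).image (fun x => Fin.append x.1 x.2) := by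
        ext z
        constructor
        · intro hz
          obtain ⟨u, hu, v, hv, rfl⟩ := Finset.mem_sub.1 hz
          obtain ⟨⟨x, y⟩, hxy, rfl⟩ := Finset.mem_image.1 hu
          obtain ⟨⟨x', y'⟩, hxy', rfl⟩ := Finset.mem_image.1 hv
          rw [Finset.mem_product] at hxy hxy'
          refine Finset.mem_image.2 ⟨(x - x', y - y'), Finset.mem_product.2
            ⟨Finset.sub_mem_sub hxy.1 hxy'.1, Finset.sub_mem_sub hxy.2 hxy'.2⟩, ?_⟩
          simp only
          rw [append_sub]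
        · intro hz
          obtain ⟨⟨u, v⟩, huv, rfl⟩ := Finset.mem_image.1 hz
          rw [Finset.mem_product] at huv
          obtain ⟨x, hx, x', hx', hxx⟩ := Finset.mem_sub.1 huv.1
          obtain ⟨y, hy, y', hy', hyy⟩ := Finset.mem_sub.1 huv.2
          refine Finset.mem_sub.2 ⟨Fin.append x y, Finset.mem_image.2 ⟨(x, y),
            Finset.mem_product.2 ⟨hx, hy⟩, rfl⟩, Fin.append x' y', Finset.mem_image.2 ⟨(x', y'),
            Finset.mem_product.2 ⟨hx', hy'⟩, rfl⟩, ?_⟩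
          rw [append_sub, hxx, hyy]
      rw [heq, Finset.card_image_of_injective _ append_inj, Finset.card_product, h4, pow_succ]

/-- one digit system from a pair of sets and a prime -/
theorem digits (hHom : TaskHom) (hCover : TaskCover) (e : ℕ) (A B : Finset (Fin e → ℤ)) (M0 : ℕ)
    (hA : ∀ x ∈ A, ∀ i, |x i| ≤ M0) (hB : ∀ x ∈ B, ∀ i, |x i| ≤ M0) (p k : ℕ) (hp : p.Prime)
    (hp1 : 4 * M0 < p) (hp2 : p ≤ 2 * (A - B).card) (hk : 2 ^ k * p < 3 ^ k)
    (hsp : (A + B).card * k ^ 2 < p) (c : ℝ) (hc0 : 0 < c) (hc1 : c ≤ 1)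
    (hneg : Real.log (((A + B).card * k ^ 2 : ℕ) : ℝ) + (1 / c - 2) * Real.log p < 0) : ¬ P c := by
  classical
  haveI : Fact p.Prime := ⟨hp⟩
  haveI : NeZero p := ⟨hp.ne_zero⟩
  obtain ⟨r, hr⟩ := hHom e p ⟨hp⟩ (A - B) (by
    intro x hx y hy hxy
    obtain ⟨a, ha, b, hb, rfl⟩ := Finset.mem_sub.1 hx
    obtain ⟨a', ha', b', hb', rfl⟩ := Finset.mem_sub.1 hy
    by_contra hcon
    push Not at hcon
    apply hxy
    funext i
    have h1 := hcon i
    have h2 : |(a - b) i - (a' - b') i| < (p : ℤ) := by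
      have q1 := abs_le.1 (hA a ha i)
      have q2 := abs_le.1 (hB b hb i)
      have q3 := abs_le.1 (hA a' ha' i)
      have q4 := abs_le.1 (hB b' hb' i)
      have q5 : (4 : ℤ) * M0 < p := by exact_mod_cast hp1
      simp only [Pi.sub_apply]
      rw [abs_lt]
      constructor <;> linarith [q1.1, q1.2, q2.1, q2.2, q3.1, q3.2, q4.1, q4.2]
    have h3 := Int.eq_zero_of_abs_lt_dvd h1 h2
    linarith)
  set φ : (Fin e → ℤ) → ZMod p := fun x => ∑ i, r i * ((x i : ℤ) : ZMod p) with hφ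
  set E : Finset (ZMod p) := (A - B).image φ with hE
  have hpE : p ≤ 3 * E.card := by
    have hN : 0 < (A - B).card := by
      have := hp.pos
      omega
    have h1 : (A - B).card * p ≤ E.card * (3 * (A - B).card) := by
      refine hr.trans ?_
      exact Nat.mul_le_mul_left _ (by omega)
    have h2 : (A - B).card * p ≤ (A - B).card * (3 * E.card) := by
      calc (A - B).card * p ≤ E.card * (3 * (A - B).card) := h1
        _ = (A - B).card * (3 * E.card) := by ring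
    exact Nat.le_of_mul_le_mul_left h2 hN
  obtain ⟨T, hT1, hT2⟩ := hCover p ⟨hp.ne_zero⟩ E hpE k
  have hcov : ∀ z : ZMod p, ∃ τ ∈ T, z - τ ∈ E := by
    by_contra hcon
    push Not at hcon
    obtain ⟨z, hz⟩ := hcon
    have h1 : 1 ≤ (Finset.univ.filter (fun z : ZMod p => ∀ τ ∈ T, z - τ ∉ E)).card :=
      Finset.card_pos.2 ⟨z, Finset.mem_filter.2 ⟨Finset.mem_univ _, hz⟩⟩
    have h2 : 3 ^ k * 1 ≤ 3 ^ k * (Finset.univ.filter (fun z : ZMod p => ∀ τ ∈ T, z - τ ∉ E)).card :=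
      Nat.mul_le_mul_left _ h1
    omega
  -- the integer homomorphism
  set ψ : (Fin e → ℤ) → ℤ := fun x => ∑ i, ((r i).val : ℤ) * x i with hψ
  have hψφ : ∀ x, ((ψ x : ℤ) : ZMod p) = φ x := by
    intro x
    simp only [hψ, hφ]
    push_cast
    refine Finset.sum_congr rfl fun i _ => ?_
    rw [ZMod.natCast_zmod_val]
  have hψadd : ∀ x y, ψ (x + y) = ψ x + ψ y := by
    intro x y
    simp only [hψ, ← Finset.sum_add_distrib, Pi.add_apply, mul_add]
  have hψsub : ∀ x y, ψ (x - y) = ψ x - ψ y := by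
    intro x y
    simp only [hψ, ← Finset.sum_sub_distrib, Pi.sub_apply, mul_sub]
  set C : ℕ := ∑ x ∈ A, (ψ x).natAbs + ∑ x ∈ B, (ψ x).natAbs with hC
  have hCb : ∀ x ∈ A, ∀ y ∈ B, |ψ x| + |ψ y| ≤ C := by
    intro x hx y hy
    have h1 : (ψ x).natAbs ≤ ∑ x ∈ A, (ψ x).natAbs :=
      Finset.single_le_sum (f := fun x => (ψ x).natAbs) (fun _ _ => Nat.zero_le _) hx
    have h2 : (ψ y).natAbs ≤ ∑ x ∈ B, (ψ x).natAbs :=
      Finset.single_le_sum (f := fun x => (ψ x).natAbs) (fun _ _ => Nat.zero_le _) hy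
    rw [Int.abs_eq_natAbs, Int.abs_eq_natAbs, hC]
    exact_mod_cast Nat.add_le_add h1 h2
  refine taskRed p ((A + B).card * k ^ 2) (2 * C + p)
    ((A ×ˢ B ×ˢ T).image (fun x => (ψ x.1 + ψ x.2.1 + C, ψ x.1 - ψ x.2.1 + (x.2.2.val : ℤ))))
    (((A + B) ×ˢ T ×ˢ T).image (fun x => 2 * ψ x.1 + 2 * C + (x.2.1.val : ℤ) - (x.2.2.val : ℤ)))
    hp.two_le hsp ?_ ?_ ?_ ?_ c hc0 hc1 hneg
  · intro g hg
    obtain ⟨⟨x, y, τ⟩, hx, rfl⟩ := Finset.mem_image.1 hg
    simp only [Finset.mem_product] at hx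
    have h1 := hCb x hx.1 y hx.2.1
    have h2 : ((τ.val : ℕ) : ℤ) < p := by exact_mod_cast ZMod.val_lt τ
    have h3 : (0 : ℤ) ≤ ((τ.val : ℕ) : ℤ) := by positivity
    have q1 := abs_le.1 (le_refl |ψ x|)
    have q2 := abs_le.1 (le_refl |ψ y|)
    have q3 := abs_nonneg (ψ x)
    have q4 := abs_nonneg (ψ y)
    simp only
    push_cast
    refine ⟨by linarith [q1.1, q2.1], by linarith [q1.2, q2.2], ?_⟩
    rw [abs_le]
    constructor <;> linarith [q1.1, q1.2, q2.1, q2.2]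
  · intro i
    obtain ⟨τ, hτ, hz⟩ := hcov ((i : ℤ) : ZMod p)
    obtain ⟨w, hw, hw2⟩ := Finset.mem_image.1 hz
    obtain ⟨x, hx, y, hy, rfl⟩ := Finset.mem_sub.1 hw
    refine ⟨_, Finset.mem_image.2 ⟨(x, y, τ), by
      simp only [Finset.mem_product]; exact ⟨hx, hy, hτ⟩, rfl⟩, ?_⟩
    simp only
    have h1 : ((i - (ψ x - ψ y + (τ.val : ℤ)) : ℤ) : ZMod p) = 0 := by
      push_cast
      rw [ZMod.natCast_zmod_val]
      have h2 : ((ψ (x - y) : ℤ) : ZMod p) = (i : ZMod p) - τ := by rw [hψφ]; exact hw2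
      rw [hψsub] at h2
      push_cast at h2
      rw [h2]
      ring
    rw [ZMod.intCast_zmod_eq_zero_iff_dvd] at h1
    obtain ⟨t, ht⟩ := h1
    exact ⟨t, by linarith⟩
  · intro g hg h hh
    obtain ⟨⟨x, y, τ⟩, hx, rfl⟩ := Finset.mem_image.1 hg
    obtain ⟨⟨x', y', τ'⟩, hx', rfl⟩ := Finset.mem_image.1 hh
    simp only [Finset.mem_product] at hx hx'
    refine Finset.mem_image.2 ⟨(x + y', τ, τ'), ?_, ?_⟩
    · simp only [Finset.mem_product]
      exact ⟨Finset.add_mem_add hx.1 hx'.2.1, hx.2.2, hx'.2.2⟩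
    · simp only
      rw [hψadd]
      ring
  · refine Finset.card_image_le.trans ?_
    rw [Finset.card_product, Finset.card_product]
    have := Nat.mul_le_mul hT1 hT1
    calc (A + B).card * (T.card * T.card) ≤ (A + B).card * (k * k) := Nat.mul_le_mul_left _ this
      _ = _ := by rw [sq]

/-- **Main theorem.** -/
theorem main (hHom : TaskHom) (hCover : TaskCover) (d : ℕ) (A B : Finset (Fin d → ℤ))
    (hD : 2 ≤ (A - B).card) (c : ℝ) (hc0 : 0 < c) (hc1 : c ≤ 1)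
    (h : Real.log (A + B).card + (1 / c - 2) * Real.log (A - B).card < 0) : ¬ P c := by
  classical
  have hne : (A - B).Nonempty := Finset.card_pos.1 (by omega)
  have hAne : A.Nonempty := by
    obtain ⟨z, hz⟩ := hne
    obtain ⟨x, hx, -⟩ := Finset.mem_sub.1 hz
    exact ⟨x, hx⟩
  have hBne : B.Nonempty := by
    obtain ⟨z, hz⟩ := hne
    obtain ⟨x, hx, y, hy, -⟩ := Finset.mem_sub.1 hz
    exact ⟨y, hy⟩
  have hs1 : 1 ≤ (A + B).card := Finset.card_pos.2 (hAne.add hBne)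
  set s : ℕ := (A + B).card with hs
  set D : ℕ := (A - B).card with hDd
  have hsR : (1 : ℝ) ≤ s := by exact_mod_cast hs1
  have hDR : (2 : ℝ) ≤ D := by exact_mod_cast hD
  have hlogs : 0 ≤ Real.log s := Real.log_nonneg hsR
  have hlogD : 0 < Real.log D := Real.log_pos (by linarith)
  have hc' : 1 ≤ 1 / c := by
    rw [le_div_iff₀ hc0]; linarith
  have hexp : 1 / c - 2 < 0 := by
    by_contra hcon
    push Not at hcon
    have := mul_nonneg hcon hlogD.le
    linarith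
  -- a bound for the coordinates
  obtain ⟨M0, hM0⟩ : ∃ M0 : ℕ, (∀ x ∈ A, ∀ i, |x i| ≤ (M0 : ℤ)) ∧ (∀ x ∈ B, ∀ i, |x i| ≤ (M0 : ℤ)) := by
    refine ⟨∑ x ∈ A ∪ B, ∑ i, (x i).natAbs, ?_, ?_⟩
    · intro x hx i
      have h1 : (x i).natAbs ≤ ∑ i, (x i).natAbs :=
        Finset.single_le_sum (f := fun i => (x i).natAbs) (fun _ _ => Nat.zero_le _) (Finset.mem_univ i)
      have h2 : ∑ i, (x i).natAbs ≤ ∑ x ∈ A ∪ B, ∑ i, (x i).natAbs :=
        Finset.single_le_sum (f := fun x : Fin d → ℤ => ∑ i, (x i).natAbs) (fun _ _ => Nat.zero_le _)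
          (Finset.mem_union_left _ hx)
      rw [Int.abs_eq_natAbs]
      exact_mod_cast h1.trans h2
    · intro x hx i
      have h1 : (x i).natAbs ≤ ∑ i, (x i).natAbs :=
        Finset.single_le_sum (f := fun i => (x i).natAbs) (fun _ _ => Nat.zero_le _) (Finset.mem_univ i)
      have h2 : ∑ i, (x i).natAbs ≤ ∑ x ∈ A ∪ B, ∑ i, (x i).natAbs :=
        Finset.single_le_sum (f := fun x : Fin d → ℤ => ∑ i, (x i).natAbs) (fun _ _ => Nat.zero_le _)
          (Finset.mem_union_right _ hx)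
      rw [Int.abs_eq_natAbs]
      exact_mod_cast h1.trans h2
  -- the number of translates per digit
  obtain ⟨K0, hK0⟩ : ∃ K0 : ℕ, (2 * (D : ℝ)) < (3 / 2 : ℝ) ^ K0 :=
    pow_unbounded_of_one_lt _ (by norm_num)
  set q : ℝ := s * (D : ℝ) ^ (1 / c - 2) with hq
  have hq0 : 0 ≤ q := by positivity
  have hq1 : q < 1 := by
    have : q = Real.exp (Real.log s + (1 / c - 2) * Real.log D) := by
      rw [hq, Real.exp_add, Real.exp_log (by linarith), Real.rpow_def_of_pos (by linarith)]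
      congr 1
      rw [mul_comm (Real.log (D : ℝ))]
    rw [this]
    have := Real.exp_lt_exp.2 h
    rwa [Real.exp_zero] at this
  have hlim : Tendsto (fun m : ℕ => (K0 : ℝ) ^ 2 * ((m : ℝ) ^ 2 * q ^ m)) atTop (𝓝 0) := by
    have := (tendsto_pow_const_mul_const_pow_of_abs_lt_one 2 (by rw [abs_of_nonneg hq0]; exact hq1) :
      Tendsto (fun n : ℕ => (n : ℝ) ^ 2 * q ^ n) atTop (𝓝 0)).const_mul ((K0 : ℝ) ^ 2)
    simpa using this
  have hev := hlim.eventually (gt_mem_nhds (show (0 : ℝ) < 1 by norm_num))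
  obtain ⟨m, hm, hmn⟩ := (hev.and (eventually_ge_atTop (4 * M0 + 1))).exists
  have hm1 : 1 ≤ m := by omega
  obtain ⟨e, A', B', h1, h2, h3, h4⟩ := pw d A B M0 hM0.1 hM0.2 m
  rw [← hs] at h3
  rw [← hDd] at h4
  have hDm : D ^ m ≠ 0 := by positivity
  obtain ⟨p, hp, hp1, hp2⟩ := Nat.exists_prime_lt_and_le_two_mul (D ^ m) hDm
  have hpR : (D : ℝ) ^ m ≤ p := by exact_mod_cast hp1.le
  have hDmpos : (0 : ℝ) < (D : ℝ) ^ m := by positivity
  -- the number of translates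
  have hk0 : K0 ≠ 0 := by
    rintro rfl
    simp at hK0
    linarith
  have hk : 2 ^ (m * K0) * p < 3 ^ (m * K0) := by
    have e1 : (p : ℝ) < ((3 / 2 : ℝ) ^ K0) ^ m := by
      have e2 : (p : ℝ) ≤ 2 * (D : ℝ) ^ m := by exact_mod_cast hp2
      have e3 : 2 * (D : ℝ) ^ m ≤ (2 * (D : ℝ)) ^ m := by
        rw [mul_pow]
        have : (2 : ℝ) ≤ 2 ^ m := by
          calc (2 : ℝ) = 2 ^ 1 := by norm_num
            _ ≤ 2 ^ m := pow_le_pow_right₀ (by norm_num) hm1
        nlinarith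
      have e4 : (2 * (D : ℝ)) ^ m < ((3 / 2 : ℝ) ^ K0) ^ m :=
        pow_lt_pow_left₀ hK0 (by positivity) (by omega)
      linarith
    rw [← pow_mul, mul_comm K0 m, div_pow, lt_div_iff₀ (by positivity)] at e1
    have e5 : ((p * 2 ^ (m * K0) : ℕ) : ℝ) < ((3 ^ (m * K0) : ℕ) : ℝ) := by
      push_cast
      exact e1
    have e6 : p * 2 ^ (m * K0) < 3 ^ (m * K0) := by exact_mod_cast e5
    rwa [mul_comm] at e6
  have hs' : (((A' + B').card * (m * K0) ^ 2 : ℕ) : ℝ) ≤ (s : ℝ) ^ m * ((m : ℝ) * K0) ^ 2 := by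
    push_cast
    have : ((A' + B').card : ℝ) ≤ (s : ℝ) ^ m := by exact_mod_cast h3
    gcongr
  have hmK : (0 : ℝ) < (m : ℝ) * K0 := by
    have a1 : (0 : ℝ) < m := by exact_mod_cast hm1
    have a2 : (0 : ℝ) < K0 := by exact_mod_cast Nat.pos_of_ne_zero hk0
    positivity
  -- `s^m (m K0)^2 D^(m (1/c - 2)) < 1`
  have hmain : (s : ℝ) ^ m * ((m : ℝ) * K0) ^ 2 * ((D : ℝ) ^ m) ^ (1 / c - 2) < 1 := by
    have e1 : (K0 : ℝ) ^ 2 * ((m : ℝ) ^ 2 * q ^ m) =
        (s : ℝ) ^ m * ((m : ℝ) * K0) ^ 2 * ((D : ℝ) ^ m) ^ (1 / c - 2) := by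
      rw [hq, mul_pow, mul_pow, ← Real.rpow_natCast ((D : ℝ) ^ (1 / c - 2)) m,
        ← Real.rpow_mul (by positivity), ← Real.rpow_natCast (D : ℝ) m,
        ← Real.rpow_mul (by positivity), mul_comm (1 / c - 2) (m : ℝ)]
      ring
    rw [← e1]
    exact hm
  have hplow : (p : ℝ) ^ (1 / c - 2) ≤ ((D : ℝ) ^ m) ^ (1 / c - 2) :=
    Real.rpow_le_rpow_of_nonpos hDmpos hpR hexp.le
  have hp0 : (0 : ℝ) < p := by linarith
  have hA'ne : 0 < (A' - B').card := by rw [h4]; positivity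
  have hcardpos : 0 < (A' + B').card := by
    obtain ⟨z, hz⟩ := Finset.card_pos.1 hA'ne
    obtain ⟨x, hx, y, hy, -⟩ := Finset.mem_sub.1 hz
    exact Finset.card_pos.2 ⟨x + y, Finset.add_mem_add hx hy⟩
  have hprod : (((A' + B').card * (m * K0) ^ 2 : ℕ) : ℝ) * (p : ℝ) ^ (1 / c - 2) < 1 := by
    calc (((A' + B').card * (m * K0) ^ 2 : ℕ) : ℝ) * (p : ℝ) ^ (1 / c - 2)
        ≤ ((s : ℝ) ^ m * ((m : ℝ) * K0) ^ 2) * ((D : ℝ) ^ m) ^ (1 / c - 2) := by
          gcongr
      _ < 1 := hmain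
  have hSpos : (0 : ℝ) < (((A' + B').card * (m * K0) ^ 2 : ℕ) : ℝ) := by
    have : 0 < (A' + B').card * (m * K0) ^ 2 := by
      have : 0 < m * K0 := Nat.mul_pos hm1 (Nat.pos_of_ne_zero hk0)
      positivity
    exact_mod_cast this
  refine digits hHom hCover e A' B' M0 h1 h2 p (m * K0) hp ?_ ?_ hk ?_ c hc0 hc1 ?_
  · have e1 : m < D ^ m := Nat.lt_pow_self (by omega)
    omega
  · rw [h4]; exact hp2
  · -- `(1/c - 2) ≥ -1`
    have e1 : (p : ℝ)⁻¹ ≤ (p : ℝ) ^ (1 / c - 2) := by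
      rw [← Real.rpow_neg_one]
      exact Real.rpow_le_rpow_of_exponent_le (by exact_mod_cast hp.one_lt.le) (by linarith)
    have e2 : (((A' + B').card * (m * K0) ^ 2 : ℕ) : ℝ) * (p : ℝ)⁻¹ < 1 :=
      (mul_le_mul_of_nonneg_left e1 hSpos.le).trans_lt hprod
    rw [← div_eq_mul_inv, div_lt_one hp0] at e2
    exact_mod_cast e2
  · have e1 : Real.log ((((A' + B').card * (m * K0) ^ 2 : ℕ) : ℝ) * (p : ℝ) ^ (1 / c - 2)) < 0 :=
      Real.log_neg (by positivity) hprod
    rwa [Real.log_mul hSpos.ne' (by positivity), Real.log_rpow hp0] at e1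

end Q320.SD
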