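import Mathlib
import Pool.Agent.Q320.SD.Stmts

set_option autoImplicit false

namespace Q320.SD

theorem taskCover : TaskCover := by
  intro p _ E hE k
  induction k with
  | zero => exact ⟨∅, by simp, by simp [ZMod.card]⟩
  | succ k ih =>
    obtain ⟨T, hT, h⟩ := ih
    set U := Finset.univ.filter (fun z : ZMod p => ∀ τ ∈ T, z - τ ∉ E) with hU
    have hsum : ∑ τ : ZMod p, (U.filter (fun z => z - τ ∈ E)).card = U.card * E.card := by
      simp_rw [Finset.card_filter]
      rw [Finset.sum_comm]
      have h1 : ∀ z ∈ U, ∑ τ : ZMod p, (if z - τ ∈ E then 1 else 0) = E.card := by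
        intro z _
        rw [← Finset.card_filter]
        refine Finset.card_bij (fun τ _ => z - τ) (fun τ hτ => (Finset.mem_filter.1 hτ).2)
          (fun a _ b _ hab => by simpa using hab) (fun e he => ⟨z - e, ?_, by ring⟩)
        simp [he]
      rw [Finset.sum_congr rfl h1, Finset.sum_const, smul_eq_mul]
    obtain ⟨τ, hτ⟩ : ∃ τ : ZMod p, U.card ≤ 3 * (U.filter (fun z => z - τ ∈ E)).card := by
      by_contra hc
      push Not at hc
      have h1 : ∑ τ : ZMod p, 3 * (U.filter (fun z => z - τ ∈ E)).card < ∑ τ : ZMod p, U.card :=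
        Finset.sum_lt_sum_of_nonempty Finset.univ_nonempty fun τ _ => hc τ
      rw [← Finset.mul_sum, hsum, Finset.sum_const, Finset.card_univ, ZMod.card, smul_eq_mul] at h1
      have h2 := Nat.mul_le_mul_right U.card hE
      have h3 : 3 * (U.card * E.card) = 3 * E.card * U.card := by ring
      omega
    refine ⟨insert τ T, (Finset.card_insert_le _ _).trans (by omega), ?_⟩
    have hsplit : (Finset.univ.filter (fun z : ZMod p => ∀ σ ∈ insert τ T, z - σ ∉ E)) =
        U.filter (fun z => ¬ (z - τ ∈ E)) := by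
      ext z
      simp [hU, and_comm]
    rw [hsplit]
    have hcard := Finset.card_filter_add_card_filter_not (s := U) (fun z => z - τ ∈ E)
    have h4 : 3 * (U.filter (fun z => ¬ (z - τ ∈ E))).card ≤ 2 * U.card := by omega
    calc 3 ^ (k + 1) * (U.filter (fun z => ¬ (z - τ ∈ E))).card
        = 3 ^ k * (3 * (U.filter (fun z => ¬ (z - τ ∈ E))).card) := by ring
      _ ≤ 3 ^ k * (2 * U.card) := Nat.mul_le_mul_left _ h4
      _ = 2 * (3 ^ k * U.card) := by ring
      _ ≤ 2 * (2 ^ k * p) := Nat.mul_le_mul_left _ h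
      _ = 2 ^ (k + 1) * p := by ring

end Q320.SD
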