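import Mathlib
import Pool.Agent.Q320.SD.Stmts

set_option autoImplicit false

namespace Q320.SD

open Finset

theorem ker_le {d p : ℕ} [hp : Fact p.Prime] (v : Fin d → ZMod p) (hv : ∃ i, v i ≠ 0) :
    p * (univ.filter (fun r : Fin d → ZMod p => ∑ i, r i * v i = 0)).card ≤ p ^ d := by
  classical
  obtain ⟨i₀, h0⟩ := hv
  let u : Fin d → ZMod p := Pi.single i₀ (v i₀)⁻¹
  have hu : ∑ i, u i * v i = 1 := by
    rw [Finset.sum_eq_single i₀]
    · simp only [u, Pi.single_eq_same]
      exact inv_mul_cancel₀ h0
    · intro j _ hj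
      simp only [u, Pi.single_eq_of_ne hj, zero_mul]
    · intro h
      exact absurd (mem_univ _) h
  have h1 : ((univ : Finset (ZMod p)) ×ˢ (univ.filter (fun r : Fin d → ZMod p => ∑ i, r i * v i = 0))).card ≤
      (univ : Finset (Fin d → ZMod p)).card := by
    refine Finset.card_le_card_of_injOn (fun q => fun i => q.2 i + q.1 * u i) (fun _ _ => mem_univ _) ?_
    have key : ∀ q : ZMod p × (Fin d → ZMod p), ∑ i, q.2 i * v i = 0 →
        ∑ i, (q.2 i + q.1 * u i) * v i = q.1 := by
      intro q hq
      have : ∀ i, (q.2 i + q.1 * u i) * v i = q.2 i * v i + q.1 * (u i * v i) := fun i => by ring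
      rw [Finset.sum_congr rfl fun i _ => this i, Finset.sum_add_distrib, hq, ← Finset.mul_sum, hu, zero_add, mul_one]
    intro q hq q' hq' h
    simp only [coe_product, Set.mem_prod, mem_coe, mem_filter, mem_univ, true_and] at hq hq'
    have e1 : q.1 = q'.1 := by
      rw [← key q hq, ← key q' hq']
      refine Finset.sum_congr rfl fun i _ => ?_
      have h2 : q.2 i + q.1 * u i = q'.2 i + q'.1 * u i := congrFun h i
      rw [h2]
    have e2 : q.2 = q'.2 := by
      funext i
      have : q.2 i + q.1 * u i = q'.2 i + q'.1 * u i := congrFun h i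
      rw [e1] at this
      exact add_right_cancel this
    exact Prod.ext e1 e2
  rw [Finset.card_product, Finset.card_univ, ZMod.card, Finset.card_univ, Fintype.card_fun, ZMod.card,
    Fintype.card_fin] at h1
  exact h1

theorem taskHom : TaskHom := by
  intro d p hp D hD
  classical
  by_contra hcon
  push Not at hcon
  set φ : (Fin d → ZMod p) → (Fin d → ℤ) → ZMod p := fun r x => ∑ i, r i * ((x i : ℤ) : ZMod p) with hφ
  have hcon' : ∀ r, (D.image (φ r)).card * (p + D.card) < D.card * p := hcon
  have hne : 0 < D.card := by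
    rcases Nat.eq_zero_or_pos D.card with h | h
    · have h2 := hcon' 0
      rw [h, zero_mul] at h2
      exact absurd h2 (Nat.not_lt_zero _)
    · exact h
  set N : (Fin d → ZMod p) → ℕ := fun r => ∑ x ∈ D, (D.filter (fun y => φ r y = φ r x)).card with hN
  have hCS : ∀ r, D.card ^ 2 ≤ (D.image (φ r)).card * N r := by
    intro r
    have h1 : D.card = ∑ b ∈ D.image (φ r), (D.filter (fun y => φ r y = b)).card :=
      Finset.card_eq_sum_card_image _ _
    have h2 : N r = ∑ b ∈ D.image (φ r), (D.filter (fun y => φ r y = b)).card ^ 2 := by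
      have h3 := Finset.sum_comp (s := D) (fun b => (D.filter (fun y => φ r y = b)).card) (φ r)
      rw [hN]
      simp only
      rw [h3]
      exact Finset.sum_congr rfl fun b _ => by rw [smul_eq_mul, sq]
    rw [h2]
    conv_lhs => rw [h1]
    exact sq_sum_le_card_mul_sum_sq
  have hlow : ∀ r, D.card * (p + D.card) < p * N r := by
    intro r
    have h1 := hCS r
    have h2 := hcon' r
    have hNpos : 0 < N r := by
      rcases Nat.eq_zero_or_pos (N r) with h | h
      · rw [h, mul_zero] at h1
        have : 0 < D.card ^ 2 := by positivity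
        omega
      · exact h
    have h3 : D.card ^ 2 * (p + D.card) ≤ (D.image (φ r)).card * (p + D.card) * N r := by
      calc D.card ^ 2 * (p + D.card) ≤ (D.image (φ r)).card * N r * (p + D.card) := Nat.mul_le_mul_right _ h1
        _ = _ := by ring
    have h4 : (D.image (φ r)).card * (p + D.card) * N r < D.card * p * N r := Nat.mul_lt_mul_of_pos_right h2 hNpos
    have h5 : D.card * (D.card * (p + D.card)) < D.card * (p * N r) := by
      calc D.card * (D.card * (p + D.card)) = D.card ^ 2 * (p + D.card) := by ring
        _ < D.card * p * N r := lt_of_le_of_lt h3 h4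
        _ = _ := by ring
    exact Nat.lt_of_mul_lt_mul_left h5
  have hsum : ∑ r : Fin d → ZMod p, D.card * (p + D.card) < ∑ r : Fin d → ZMod p, p * N r :=
    Finset.sum_lt_sum_of_nonempty univ_nonempty fun r _ => hlow r
  have hup : ∑ r : Fin d → ZMod p, p * N r ≤ p ^ d * (D.card * (p + D.card)) := by
    have h1 : ∑ r : Fin d → ZMod p, p * N r =
        ∑ x ∈ D, ∑ y ∈ D, p * (univ.filter (fun r : Fin d → ZMod p => φ r y = φ r x)).card := by
      have h2 : ∀ r, p * N r = ∑ x ∈ D, ∑ y ∈ D, if φ r y = φ r x then p else 0 := by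
        intro r
        rw [hN]
        simp only
        rw [Finset.mul_sum]
        refine Finset.sum_congr rfl fun x _ => ?_
        rw [← Finset.sum_filter, Finset.sum_const, smul_eq_mul, mul_comm]
      rw [Finset.sum_congr rfl fun r _ => h2 r, Finset.sum_comm]
      refine Finset.sum_congr rfl fun x _ => ?_
      rw [Finset.sum_comm]
      refine Finset.sum_congr rfl fun y _ => ?_
      rw [← Finset.sum_filter, Finset.sum_const, smul_eq_mul, mul_comm]
    have h3 : ∀ x ∈ D, ∀ y ∈ D, p * (univ.filter (fun r : Fin d → ZMod p => φ r y = φ r x)).card ≤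
        p ^ d + if y = x then p ^ d * p else 0 := by
      intro x hx y hy
      by_cases hxy : y = x
      · rw [if_pos hxy]
        have h4 : (univ.filter (fun r : Fin d → ZMod p => φ r y = φ r x)).card ≤ p ^ d := by
          refine (Finset.card_le_univ _).trans ?_
          rw [Fintype.card_fun, ZMod.card, Fintype.card_fin]
        calc p * _ ≤ p * p ^ d := Nat.mul_le_mul_left _ h4
          _ = p ^ d * p := mul_comm _ _
          _ ≤ _ := Nat.le_add_left _ _
      · rw [if_neg hxy, add_zero]
        have h4 : (univ.filter (fun r : Fin d → ZMod p => φ r y = φ r x)) =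
            univ.filter (fun r : Fin d → ZMod p => ∑ i, r i * (((y i - x i : ℤ)) : ZMod p) = 0) := by
          refine Finset.filter_congr fun r _ => ?_
          rw [hφ]
          simp only
          rw [← sub_eq_zero, ← Finset.sum_sub_distrib]
          have : ∀ i, r i * ((y i : ℤ) : ZMod p) - r i * ((x i : ℤ) : ZMod p) =
              r i * (((y i - x i : ℤ)) : ZMod p) := fun i => by push_cast; ring
          rw [Finset.sum_congr rfl fun i _ => this i]
        rw [h4]
        refine ker_le (fun i => (((y i - x i : ℤ)) : ZMod p)) ?_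
        obtain ⟨i, hi⟩ := hD y hy x hx hxy
        exact ⟨i, fun h => hi ((ZMod.intCast_zmod_eq_zero_iff_dvd _ _).1 h)⟩
    rw [h1]
    calc _ ≤ ∑ x ∈ D, ∑ y ∈ D, (p ^ d + if y = x then p ^ d * p else 0) :=
        Finset.sum_le_sum fun x hx => Finset.sum_le_sum fun y hy => h3 x hx y hy
      _ = ∑ x ∈ D, (D.card * p ^ d + p ^ d * p) := by
        refine Finset.sum_congr rfl fun x hx => ?_
        rw [Finset.sum_add_distrib, Finset.sum_const, smul_eq_mul, Finset.sum_ite_eq', if_pos hx]
      _ = p ^ d * (D.card * (p + D.card)) := by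
        rw [Finset.sum_const, smul_eq_mul]
        ring
  rw [Finset.sum_const, Finset.card_univ, Fintype.card_fun, ZMod.card, Fintype.card_fin, smul_eq_mul] at hsum
  omega

end Q320.SD
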