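import Pool.Agent.Q320.SD.Stmts

open scoped Pointwise
open Finset

namespace Q320.SD

theorem card_piAnt {ι : Type*} [DecidableEq ι] (s : Finset ι) (n : ℕ) :
    (piAntidiag s n).card = (s.card + n - 1).choose n := by
  rw [← card_finsuppAntidiag_nat_eq_choose, finsuppAntidiag, card_map, card_attach]

/-- the simplex -/
noncomputable def Smp (d : ℕ) (N : ℕ) : Finset (Fin d → ℤ) :=
  (Fintype.piFinset fun _ : Fin d => Finset.Icc (0 : ℤ) N).filter fun x => ∑ i, x i ≤ N

theorem mem_Smp {d N : ℕ} {x : Fin d → ℤ} : x ∈ Smp d N ↔ (∀ i, 0 ≤ x i) ∧ ∑ i, x i ≤ N := by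
  simp only [Smp, mem_filter, Fintype.mem_piFinset, mem_Icc]
  constructor
  · rintro ⟨h1, h2⟩
    exact ⟨fun i => (h1 i).1, h2⟩
  · rintro ⟨h1, h2⟩
    exact ⟨fun i => ⟨h1 i, (single_le_sum (fun j _ => h1 j) (mem_univ i)).trans h2⟩, h2⟩

theorem card_Smp (d N : ℕ) : (Smp d N).card ≤ (N + d).choose d := by
  have h : (Smp d N).card ≤ (piAntidiag (univ : Finset (Option (Fin d))) N).card := by
    apply card_le_card_of_injOn
      (fun (x : Fin d → ℤ) (o : Option (Fin d)) =>
        o.elim ((N : ℤ) - ∑ i, x i).toNat (fun i => (x i).toNat))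
    · intro x hx
      have hx := mem_Smp.1 hx
      rw [mem_coe, mem_piAntidiag]
      refine ⟨?_, fun _ _ => mem_univ _⟩
      rw [Fintype.sum_option]
      simp only [Option.elim_none, Option.elim_some]
      have h1 : (((((N : ℤ) - ∑ i, x i).toNat : ℕ) : ℤ) + ∑ i, (((x i).toNat : ℕ) : ℤ)) = N := by
        rw [Int.toNat_of_nonneg (by linarith [hx.2])]
        have : ∑ i, (((x i).toNat : ℕ) : ℤ) = ∑ i, x i :=
          sum_congr rfl fun i _ => Int.toNat_of_nonneg (hx.1 i)
        rw [this]
        ring
      exact_mod_cast h1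
    · intro x hx y hy h
      have hx := mem_Smp.1 hx
      have hy := mem_Smp.1 hy
      funext i
      have h1 := congrFun h (some i)
      simp only [Option.elim_some] at h1
      have := hx.1 i
      have := hy.1 i
      omega
  rw [card_piAnt, card_univ, Fintype.card_option, Fintype.card_fin,
    show d + 1 + N - 1 = N + d by omega, Nat.choose_symm_add] at h
  exact h

/-- the difference vector -/
noncomputable def FF (d : ℕ) (t : Σ _ : Finset (Fin d), (Option (Fin d) → ℕ) × (Option (Fin d) → ℕ)) :
    Fin d → ℤ :=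
  fun i => if i ∈ t.1 then 1 + (t.2.1 (some i) : ℤ) else -(t.2.2 (some i) : ℤ)

/-- the triples -/
noncomputable def TT (d L k : ℕ) : Finset (Σ _ : Finset (Fin d), (Option (Fin d) → ℕ) × (Option (Fin d) → ℕ)) :=
  (powersetCard k univ).sigma fun S =>
    piAntidiag (insertNone S) (L - k) ×ˢ piAntidiag (insertNone Sᶜ) L

theorem card_TT (d L k : ℕ) (hk : k ≤ d) (hL : k ≤ L) :
    (TT d L k).card = d.choose k * L.choose k * (L + d - k).choose L := by
  unfold TT
  rw [card_sigma]
  have h : ∀ S ∈ powersetCard k (univ : Finset (Fin d)),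
      (piAntidiag (insertNone S) (L - k) ×ˢ piAntidiag (insertNone Sᶜ) L).card =
        L.choose k * (L + d - k).choose L := by
    intro S hS
    have hS := (mem_powersetCard.1 hS).2
    rw [card_product, card_piAnt, card_piAnt, card_insertNone, card_insertNone, card_compl, hS,
      Fintype.card_fin, show k + 1 + (L - k) - 1 = L by omega,
      show d - k + 1 + L - 1 = L + d - k by omega, Nat.choose_symm hL]
  rw [sum_congr rfl h, sum_const, card_powersetCard, card_univ, Fintype.card_fin, smul_eq_mul,
    mul_assoc]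

theorem taskSimplex : TaskSimplex := by
  intro d L k hk hL
  refine ⟨Smp d L, ⟨0, mem_Smp.2 ⟨fun i => le_rfl, by simp⟩⟩, ?_, ?_⟩
  · refine le_trans (card_le_card ?_) (card_Smp d (2 * L))
    intro z hz
    obtain ⟨x, hx, y, hy, rfl⟩ := mem_add.1 hz
    have hx := mem_Smp.1 hx
    have hy := mem_Smp.1 hy
    refine mem_Smp.2 ⟨fun i => add_nonneg (hx.1 i) (hy.1 i), ?_⟩
    simp only [Pi.add_apply, sum_add_distrib]
    push_cast
    linarith [hx.2, hy.2]
  · rw [← card_TT d L k hk hL]
    apply card_le_card_of_injOn (FF d)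
    · rintro ⟨S, u, v⟩ ht
      rw [mem_coe, TT, mem_sigma, mem_product, mem_powersetCard] at ht
      obtain ⟨⟨-, hS⟩, hu, hv⟩ := ht
      simp only [mem_piAntidiag] at hu hv
      obtain ⟨hu1, hu2⟩ := hu
      obtain ⟨hv1, hv2⟩ := hv
      rw [sum_insertNone] at hu1 hv1
      rw [mem_coe, mem_sub]
      refine ⟨fun i => if i ∈ S then 1 + (u (some i) : ℤ) else 0, ?_,
        fun i => if i ∈ Sᶜ then (v (some i) : ℤ) else 0, ?_, ?_⟩
      · refine mem_Smp.2 ⟨fun i => ?_, ?_⟩
        · show (0:ℤ) ≤ _
          split_ifs <;> positivity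
        · rw [sum_ite_mem, univ_inter, sum_add_distrib, sum_const, hS]
          have h1 : (u none : ℤ) + ∑ i ∈ S, (u (some i) : ℤ) = (L - k : ℕ) := by exact_mod_cast hu1
          rw [Nat.cast_sub hL] at h1
          have h2 : (0 : ℤ) ≤ u none := by positivity
          simp only [nsmul_eq_mul, mul_one]
          linarith
      · refine mem_Smp.2 ⟨fun i => ?_, ?_⟩
        · show (0:ℤ) ≤ _
          split_ifs <;> positivity
        · rw [sum_ite_mem, univ_inter]
          have h1 : (v none : ℤ) + ∑ i ∈ Sᶜ, (v (some i) : ℤ) = L := by exact_mod_cast hv1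
          have h2 : (0 : ℤ) ≤ v none := by positivity
          linarith
      · funext i
        simp only [FF, Pi.sub_apply, mem_compl]
        by_cases hi : i ∈ S
        · simp [hi]
        · simp [hi]
    · rintro ⟨S, u, v⟩ ht ⟨S', u', v'⟩ ht' h
      rw [mem_coe, TT, mem_sigma, mem_product, mem_powersetCard] at ht ht'
      obtain ⟨⟨-, hS⟩, hu, hv⟩ := ht
      obtain ⟨⟨-, hS'⟩, hu', hv'⟩ := ht'
      simp only [mem_piAntidiag] at hu hv hu' hv'
      obtain ⟨hu1, hu2⟩ := hu
      obtain ⟨hv1, hv2⟩ := hv
      obtain ⟨hu1', hu2'⟩ := hu'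
      obtain ⟨hv1', hv2'⟩ := hv'
      have hF : ∀ i, (if i ∈ S then 1 + (u (some i) : ℤ) else -(v (some i) : ℤ)) =
          if i ∈ S' then 1 + (u' (some i) : ℤ) else -(v' (some i) : ℤ) := fun i => congrFun h i
      have hSS : S = S' := by
        ext i
        have hi := hF i
        by_cases h1 : i ∈ S <;> by_cases h2 : i ∈ S' <;> simp only [h1, h2, if_true, if_false] at hi ⊢
        · omega
        · omega
      subst hSS
      have hu3 : ∀ i, u (some i) = u' (some i) := by
        intro i
        have hi := hF i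
        by_cases h1 : i ∈ S
        · simp only [h1, if_true] at hi
          omega
        · have e1 : u (some i) = 0 := by
            by_contra h3
            exact h1 (some_mem_insertNone.1 (hu2 _ h3))
          have e2 : u' (some i) = 0 := by
            by_contra h3
            exact h1 (some_mem_insertNone.1 (hu2' _ h3))
          rw [e1, e2]
      have hv3 : ∀ i, v (some i) = v' (some i) := by
        intro i
        have hi := hF i
        by_cases h1 : i ∈ S
        · have e1 : v (some i) = 0 := by
            by_contra h3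
            exact (mem_compl.1 (some_mem_insertNone.1 (hv2 _ h3))) h1
          have e2 : v' (some i) = 0 := by
            by_contra h3
            exact (mem_compl.1 (some_mem_insertNone.1 (hv2' _ h3))) h1
          rw [e1, e2]
        · simp only [h1, if_false] at hi
          omega
      rw [sum_insertNone] at hu1 hv1 hu1' hv1'
      have hu4 : ∑ i ∈ S, u (some i) = ∑ i ∈ S, u' (some i) := sum_congr rfl fun i _ => hu3 i
      have hv4 : ∑ i ∈ Sᶜ, v (some i) = ∑ i ∈ Sᶜ, v' (some i) := sum_congr rfl fun i _ => hv3 i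
      have hu5 : u = u' := by
        funext o
        cases o with
        | none => omega
        | some i => exact hu3 i
      have hv5 : v = v' := by
        funext o
        cases o with
        | none => omega
        | some i => exact hv3 i
      rw [hu5, hv5]

end Q320.SD
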