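import Mathlib
import Pool.Agent.Q320.SD.Stmts
import Pool.Agent.Q320.SD.TSimplex
import Pool.Agent.Q320.SD.THom
import Pool.Agent.Q320.SD.TCover
import Pool.Agent.Q320.SD.Asm

set_option autoImplicit false

open Filter Topology
open scoped Pointwise

namespace Q320.SD

noncomputable def ww (t : ℝ) (J : ℕ) : ℝ := ∑ z ∈ Finset.Icc (-(J : ℤ)) J, t ^ z.natAbs

theorem ww_eq (t : ℝ) (J : ℕ) : ww t J = 2 * (∑ k ∈ Finset.range (J + 1), t ^ k) - 1 := by
  induction J with
  | zero => simp [ww]; norm_num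
  | succ J ih =>
    have h1 : Finset.Icc (-((J + 1 : ℕ) : ℤ)) ((J + 1 : ℕ) : ℤ) =
        insert ((J + 1 : ℕ) : ℤ) (insert (-((J + 1 : ℕ) : ℤ)) (Finset.Icc (-(J : ℤ)) J)) := by
      ext z
      simp only [Finset.mem_Icc, Finset.mem_insert]
      push_cast
      omega
    rw [ww, h1, Finset.sum_insert, Finset.sum_insert]
    · have : ∑ z ∈ Finset.Icc (-(J : ℤ)) J, t ^ z.natAbs = ww t J := rfl
      rw [this, ih, Finset.sum_range_succ _ (J + 1)]
      have e1 : ((J + 1 : ℕ) : ℤ).natAbs = J + 1 := by simp only [Int.natAbs_natCast]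
      have e2 : (-((J + 1 : ℕ) : ℤ)).natAbs = J + 1 := by simp only [Int.natAbs_neg, Int.natAbs_natCast]
      rw [e1, e2]
      ring
    · simp only [Finset.mem_Icc, not_and_or, not_le]
      left
      push_cast
      omega
    · simp only [Finset.mem_insert, Finset.mem_Icc, not_or, not_and_or, not_le]
      push_cast
      refine ⟨by omega, by right; omega⟩

theorem box (t : ℝ) (J d : ℕ) :
    ∑ x ∈ Fintype.piFinset (fun _ : Fin d => Finset.Icc (-(J : ℤ)) J), t ^ (∑ i, (x i).natAbs) =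
      ww t J ^ d := by
  have h := Finset.prod_univ_sum (fun _ : Fin d => Finset.Icc (-(J : ℤ)) J)
    (fun (_ : Fin d) (z : ℤ) => t ^ z.natAbs)
  rw [Finset.prod_const, Finset.card_univ, Fintype.card_fin] at h
  rw [ww, h]
  refine Finset.sum_congr rfl fun x _ => ?_
  rw [Finset.prod_pow_eq_pow_sum]

theorem find (t : ℝ) (ht : 0 < t) (J d : ℕ) : ∃ a b : ℕ,
    ww t J ^ d ≤ ((J * d + 1 : ℕ) : ℝ) ^ 2 * (t ^ (a + b) * (Smp d a - Smp d b).card) := by
  classical
  set box' := Fintype.piFinset (fun _ : Fin d => Finset.Icc (-(J : ℤ)) J) with hbox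
  set g : (Fin d → ℤ) → ℕ × ℕ := fun x => (∑ i, (x i).toNat, ∑ i, (-(x i)).toNat) with hg
  set Q := Finset.range (J * d + 1) ×ˢ Finset.range (J * d + 1) with hQ
  have hmaps : ∀ x ∈ box', g x ∈ Q := by
    intro x hx
    rw [hbox, Fintype.mem_piFinset] at hx
    have h1 : ∀ i, (x i).toNat ≤ J := fun i => by
      have := Finset.mem_Icc.1 (hx i); omega
    have h2 : ∀ i, (-(x i)).toNat ≤ J := fun i => by
      have := Finset.mem_Icc.1 (hx i); omega
    have h3 : ∑ i, (x i).toNat ≤ J * d := by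
      refine (Finset.sum_le_card_nsmul _ _ J (fun i _ => h1 i)).trans ?_
      rw [Finset.card_univ, Fintype.card_fin, smul_eq_mul, mul_comm]
    have h4 : ∑ i, (-(x i)).toNat ≤ J * d := by
      refine (Finset.sum_le_card_nsmul _ _ J (fun i _ => h2 i)).trans ?_
      rw [Finset.card_univ, Fintype.card_fin, smul_eq_mul, mul_comm]
    simp only [hQ, hg, Finset.mem_product, Finset.mem_range]
    omega
  have hsum : ww t J ^ d ≤ ∑ q ∈ Q, t ^ (q.1 + q.2) * (Smp d q.1 - Smp d q.2).card := by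
    rw [← box t J d, ← Finset.sum_fiberwise_of_maps_to hmaps]
    refine Finset.sum_le_sum fun q _ => ?_
    have h1 : ∀ x ∈ box'.filter (fun x => g x = q), t ^ (∑ i, (x i).natAbs) = t ^ (q.1 + q.2) := by
      intro x hx
      have h2 := (Finset.mem_filter.1 hx).2
      rw [← h2]
      simp only [hg]
      rw [← Finset.sum_add_distrib]
      congr 1
      refine Finset.sum_congr rfl fun i _ => ?_
      omega
    rw [Finset.sum_congr rfl h1, Finset.sum_const, nsmul_eq_mul, mul_comm]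
    refine mul_le_mul_of_nonneg_left ?_ (by positivity)
    have h3 : box'.filter (fun x => g x = q) ⊆ Smp d q.1 - Smp d q.2 := by
      intro x hx
      have h2 := (Finset.mem_filter.1 hx).2
      refine Finset.mem_sub.2 ⟨fun i => ((x i).toNat : ℤ), mem_Smp.2 ⟨fun i => by positivity, ?_⟩,
        fun i => ((-(x i)).toNat : ℤ), mem_Smp.2 ⟨fun i => by positivity, ?_⟩, ?_⟩
      · rw [← h2]; simp only [hg]; push_cast; exact le_refl _
      · rw [← h2]; simp only [hg]; push_cast; exact le_refl _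
      · funext i
        simp only [Pi.sub_apply]
        omega
    exact_mod_cast Finset.card_le_card h3
  obtain ⟨q, hq, hmax⟩ := Finset.exists_max_image Q
    (fun q => t ^ (q.1 + q.2) * ((Smp d q.1 - Smp d q.2).card : ℝ))
    ⟨(0, 0), by simp [hQ]⟩
  refine ⟨q.1, q.2, hsum.trans ?_⟩
  refine (Finset.sum_le_card_nsmul _ _ _ hmax).trans ?_
  rw [hQ, Finset.card_product, Finset.card_range, nsmul_eq_mul]
  push_cast
  rw [sq]

theorem sum_Smp (d a b : ℕ) : (Smp d a + Smp d b).card ≤ 2 ^ (a + b + d) := by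
  classical
  have h1 : Smp d a + Smp d b ⊆ Smp d (a + b) := by
    intro z hz
    obtain ⟨x, hx, y, hy, rfl⟩ := Finset.mem_add.1 hz
    rw [mem_Smp] at hx hy ⊢
    refine ⟨fun i => add_nonneg (hx.1 i) (hy.1 i), ?_⟩
    simp only [Pi.add_apply, Finset.sum_add_distrib]
    push_cast
    linarith [hx.2, hy.2]
  refine (Finset.card_le_card h1).trans ((card_Smp d (a + b)).trans ?_)
  exact Nat.choose_le_two_pow _ _

set_option maxHeartbeats 4000000 in
/-- the limiting exponent -/
theorem limit (c : ℝ) (hc0 : 0 < c) (hc1 : c ≤ 1)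
    (h : Real.log 2 + (1 / c - 2) * Real.log (1 + Real.sqrt 2) < 0) : ¬ P c := by
  have hs2 : 0 < Real.sqrt 2 := by positivity
  have hsq : Real.sqrt 2 ^ 2 = 2 := Real.sq_sqrt (by norm_num)
  have hs1 : 1 < Real.sqrt 2 := by nlinarith
  have hs3 : Real.sqrt 2 < 3 / 2 := by nlinarith
  have hlog2 : 0 < Real.log 2 := Real.log_pos (by norm_num)
  have hc' : 1 ≤ 1 / c := by
    rw [le_div_iff₀ hc0]; linarith
  have hL : 0 < Real.log (1 + Real.sqrt 2) := Real.log_pos (by linarith)
  have hexp : 1 / c - 2 < 0 := by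
    by_contra hcon
    push Not at hcon
    have := mul_nonneg hcon hL.le
    linarith
  -- choose v
  have hcont : ContinuousAt (fun v : ℝ => Real.log 2 + (1 / c - 2) * Real.log v) (1 + Real.sqrt 2) :=
    continuousAt_const.add (continuousAt_const.mul (Real.continuousAt_log (by positivity)))
  have hev1 : ∀ᶠ v in 𝓝[<] (1 + Real.sqrt 2), Real.log 2 + (1 / c - 2) * Real.log v < 0 :=
    nhdsWithin_le_nhds (hcont.eventually (gt_mem_nhds h))
  have hev2 : ∀ᶠ v in 𝓝[<] (1 + Real.sqrt 2), v ∈ Set.Ioo 1 (1 + Real.sqrt 2) :=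
    Ioo_mem_nhdsLT (by linarith)
  obtain ⟨v, hv, hv1, hv2⟩ := (hev1.and hev2).exists
  -- choose J
  set t : ℝ := Real.sqrt 2 - 1 with ht
  have ht0 : 0 < t := by rw [ht]; linarith
  have ht1 : t < 1 := by rw [ht]; linarith
  have htinv : t * (1 + Real.sqrt 2) = 1 := by rw [ht]; nlinarith
  have hwlim : Tendsto (fun J => ww t J) atTop (𝓝 (1 + Real.sqrt 2)) := by
    have e1 : Tendsto (fun J : ℕ => ∑ k ∈ Finset.range (J + 1), t ^ k) atTop (𝓝 (1 - t)⁻¹) :=
      ((hasSum_geometric_of_lt_one ht0.le ht1).tendsto_sum_nat).comp (tendsto_add_atTop_nat 1)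
    have e2 := (e1.const_mul 2).sub_const 1
    have e3 : 2 * (1 - t)⁻¹ - 1 = 1 + Real.sqrt 2 := by
      have : (1 - t) ≠ 0 := by linarith
      field_simp
      rw [ht]
      nlinarith
    rw [e3] at e2
    refine e2.congr fun J => ?_
    rw [ww_eq]
  obtain ⟨J, hJ⟩ := (hwlim.eventually (lt_mem_nhds hv2)).exists
  set η : ℝ := -(Real.log 2 + (1 / c - 2) * Real.log v) with hη
  have hη0 : 0 < η := by rw [hη]; linarith
  have hlogv : 0 < Real.log v := Real.log_pos hv1
  -- choose d
  have hlim : Tendsto (fun d : ℕ => ((J : ℝ) + 1) ^ 2 * ((d : ℝ) ^ 2 * (Real.exp (-η)) ^ d)) atTop (𝓝 0) := by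
    have h1 : |Real.exp (-η)| < 1 := by
      rw [abs_of_pos (Real.exp_pos _)]
      have := Real.exp_lt_exp.2 (show -η < 0 by linarith)
      rwa [Real.exp_zero] at this
    have := (tendsto_pow_const_mul_const_pow_of_abs_lt_one 2 h1 :
      Tendsto (fun n : ℕ => (n : ℝ) ^ 2 * (Real.exp (-η)) ^ n) atTop (𝓝 0)).const_mul (((J : ℝ) + 1) ^ 2)
    simpa using this
  have hev := hlim.eventually (gt_mem_nhds (show (0 : ℝ) < 1 by norm_num))
  obtain ⟨d, hd, hd1⟩ := (hev.and (eventually_ge_atTop 1)).exists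
  have hd1R : (1 : ℝ) ≤ d := by exact_mod_cast hd1
  obtain ⟨a, b, hab⟩ := find t ht0 J d
  have hsumS := sum_Smp d a b
  generalize Smp d a = A at hab hsumS
  generalize Smp d b = B at hab hsumS
  obtain ⟨N, hN⟩ : ∃ N : ℝ, N = ((A - B).card : ℝ) := ⟨_, rfl⟩
  obtain ⟨R, hR⟩ : ∃ R : ℝ, R = ((J * d + 1 : ℕ) : ℝ) := ⟨_, rfl⟩
  rw [← hN, ← hR] at hab
  have hR1 : 1 ≤ R := by
    rw [hR]
    exact_mod_cast Nat.succ_le_succ (Nat.zero_le _)
  have hlogR : 2 * Real.log R < η * d := by
    have e1 : R ^ 2 * (Real.exp (-η)) ^ d < 1 := by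
      refine lt_of_le_of_lt ?_ hd
      rw [← mul_assoc]
      refine mul_le_mul_of_nonneg_right ?_ (by positivity)
      rw [← mul_pow]
      refine pow_le_pow_left₀ (by linarith) ?_ 2
      rw [hR]
      push_cast
      nlinarith
    have e2 : Real.log (R ^ 2 * (Real.exp (-η)) ^ d) < 0 := Real.log_neg (by positivity) e1
    rw [Real.log_mul (by positivity) (by positivity), Real.log_pow, Real.log_pow, Real.log_exp] at e2
    push_cast at e2
    linarith
  have hwpos : 0 < ww t J := by linarith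
  have hNpos : 0 < N := by
    by_contra hcon
    push Not at hcon
    have : ww t J ^ d ≤ 0 := hab.trans (by
      have : t ^ (a + b) * N ≤ 0 := mul_nonpos_of_nonneg_of_nonpos (by positivity) hcon
      exact mul_nonpos_of_nonneg_of_nonpos (by positivity) this)
    have h2 : 0 < ww t J ^ d := by positivity
    linarith
  have hlogt : Real.log t = - Real.log (1 + Real.sqrt 2) := by
    have : t = (1 + Real.sqrt 2)⁻¹ := eq_inv_of_mul_eq_one_left htinv
    rw [this, Real.log_inv]
  have hlv : Real.log v ≤ Real.log (1 + Real.sqrt 2) := Real.log_le_log (by linarith) hv2.le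
  have hlogN : ((a + b + d : ℕ) : ℝ) * Real.log v - 2 * Real.log R ≤ Real.log N := by
    have e1 : Real.log (ww t J ^ d) ≤ Real.log (R ^ 2 * (t ^ (a + b) * N)) :=
      Real.log_le_log (by positivity) hab
    rw [Real.log_pow, Real.log_mul (by positivity) (by positivity),
      Real.log_mul (by positivity) (by positivity), Real.log_pow, Real.log_pow, hlogt] at e1
    have e2 : Real.log v ≤ Real.log (ww t J) := Real.log_le_log (by linarith) hJ.le
    have e3 : (d : ℝ) * Real.log v ≤ d * Real.log (ww t J) := by gcongr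
    have e4 : ((a + b : ℕ) : ℝ) * Real.log v ≤ ((a + b : ℕ) : ℝ) * Real.log (1 + Real.sqrt 2) := by gcongr
    push_cast at e1 e4 ⊢
    linarith
  have hlogS : Real.log ((A + B).card : ℝ) ≤ ((a + b + d : ℕ) : ℝ) * Real.log 2 := by
    have e1 : ((A + B).card : ℝ) ≤ 2 ^ (a + b + d) := by exact_mod_cast hsumS
    have hApos : 0 < (A + B).card := by
      have : 0 < (A - B).card := by rw [hN] at hNpos; exact_mod_cast hNpos
      obtain ⟨z, hz⟩ := Finset.card_pos.1 this
      obtain ⟨x, hx, y, hy, -⟩ := Finset.mem_sub.1 hz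
      exact Finset.card_pos.2 ⟨x + y, Finset.add_mem_add hx hy⟩
    have e2 := Real.log_le_log (by exact_mod_cast hApos) e1
    rwa [Real.log_pow] at e2
  have hnd : (d : ℝ) ≤ ((a + b + d : ℕ) : ℝ) := by exact_mod_cast Nat.le_add_left d (a + b)
  -- `log N > d log 2`
  have hηle : η ≤ Real.log v - Real.log 2 := by
    have e0 := mul_nonneg (sub_nonneg.2 hc') hlogv.le
    rw [hη]
    linarith
  have hN2 : Real.log 2 < Real.log N := by
    have e1 : (d : ℝ) * Real.log v ≤ ((a + b + d : ℕ) : ℝ) * Real.log v := by gcongr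
    have e2 : η * d ≤ (Real.log v - Real.log 2) * d := by gcongr
    have e3 : Real.log 2 ≤ Real.log 2 * d := le_mul_of_one_le_right hlog2.le hd1R
    linarith
  have hN2' : 2 ≤ (A - B).card := by
    have h3 : (2 : ℝ) < N := (Real.log_lt_log_iff (by norm_num) hNpos).1 hN2
    rw [hN] at h3
    exact_mod_cast h3.le
  refine main taskHom taskCover d A B hN2' c hc0 hc1 ?_
  rw [← hN]
  have f1 : (1 / c - 2) * Real.log N ≤
      (1 / c - 2) * (((a + b + d : ℕ) : ℝ) * Real.log v - 2 * Real.log R) :=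
    mul_le_mul_of_nonpos_left hlogN hexp.le
  have f2 : ((a + b + d : ℕ) : ℝ) * (Real.log 2 + (1 / c - 2) * Real.log v) ≤
      d * (Real.log 2 + (1 / c - 2) * Real.log v) :=
    mul_le_mul_of_nonpos_right hnd hv.le
  have f3 : (2 - 1 / c) * (2 * Real.log R) ≤ 1 * (2 * Real.log R) := by
    have : 0 ≤ Real.log R := Real.log_nonneg hR1
    gcongr
    linarith
  have f4 : (d : ℝ) * (Real.log 2 + (1 / c - 2) * Real.log v) = -(η * d) := by rw [hη]; ring
  calc Real.log ((A + B).card : ℝ) + (1 / c - 2) * Real.log N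
      ≤ ((a + b + d : ℕ) : ℝ) * Real.log 2 +
        (1 / c - 2) * (((a + b + d : ℕ) : ℝ) * Real.log v - 2 * Real.log R) := add_le_add hlogS f1
    _ = ((a + b + d : ℕ) : ℝ) * (Real.log 2 + (1 / c - 2) * Real.log v) +
        (2 - 1 / c) * (2 * Real.log R) := by ring
    _ < 0 := by linarith

end Q320.SD
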