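import Mathlib
import Pool.Agent.Q320.SD.Stmts

/-!
Blueprint, part 2, for MP_15e61c_co: the lower bound `c' ≥ 3/4` (known: `2/3`).
-/

open scoped Pointwise

namespace Q320.SD

/-- `{a_i + i : i in the block t}`, blocks of length `N` -/
noncomputable def PP (a : ℕ → ℕ) (N t : ℕ) : Finset ℤ :=
  (Finset.Icc (t * N + 1) ((t + 1) * N)).image (fun i : ℕ => (a i : ℤ) + i)

/-- `{a_i - i : i in the block t}` -/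
noncomputable def QQ (a : ℕ → ℕ) (N t : ℕ) : Finset ℤ :=
  (Finset.Icc (t * N + 1) ((t + 1) * N)).image (fun i : ℕ => (a i : ℤ) - i)

/-- Three blocks. Hint: `N ≤ |P_t - Q_t|` (contains all `2 i`); `Finset.ruzsa_triangle_inequality_sub_add_add`:
`|P_t - Q_t| |Q_s| ≤ |P_t + Q_s| |Q_s + Q_t|`; `Finset.pluennecke_ruzsa_inequality_nsmul_add` (n = 2) with `A = P_u`,
`B = Q_s ∪ Q_t`: `|Q_s + Q_t| |P_u| ≤ |P_u + B|^2 ≤ (2F)^2`. -/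
def TaskThree : Prop := ∀ (a : ℕ → ℕ) (N s t u F : ℕ), 1 ≤ N →
  (PP a N t + QQ a N s).card ≤ F → (PP a N u + QQ a N s).card ≤ F → (PP a N u + QQ a N t).card ≤ F →
  N * ((PP a N u).card * (QQ a N s).card) ≤ 4 * F ^ 3

/-- Chain of blocks `0, T, 2T, ..., 2kT`. Hint: `x_j = |P_{2jT}|`, `y_j = |Q_{2jT}|`, `x_j y_j ≥ |P - Q| ≥ N`,
`N x_{j+1} y_j ≤ 4F^3`, so `x_j N^(2j) ≤ (4F^3)^j N` by induction, `x_k ≥ 1`. -/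
def TaskChain : Prop := TaskThree → ∀ (a : ℕ → ℕ) (N T k F : ℕ), 1 ≤ N →
  (∀ l, l < 2 * k → (PP a N ((l + 1) * T) + QQ a N (l * T)).card ≤ F) →
  (∀ l, l + 2 ≤ 2 * k → (PP a N ((l + 2) * T) + QQ a N (l * T)).card ≤ F) →
  N ^ (2 * k) ≤ (4 * F ^ 3) ^ k * N

/-- Sums of two blocks are in `S(a)`, in a short interval. -/
def TaskLoc : Prop := ∀ (a : ℕ → ℕ) (n N t D : ℕ), 1 ≤ N → 1 ≤ D → (t + D + 1) * N ≤ n →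
  (∀ i, 1 ≤ i → i ≤ n → a i ≤ N) → ∀ z ∈ PP a N (t + D) + QQ a N t,
    z ∈ S n a ∧ ((D : ℤ) - 1) * N ≤ z ∧ z ≤ (D + 3) * N

/-- Summation over `D = 5 τ` and `10 τ`: the intervals `[(5τ-1)N, (5τ+3)N]` are disjoint. Hint: if
`g τ = |S ∩ [(5τ-1)N, (5τ+3)N]|` then by TaskLoc, TaskChain (T = 5τ, F = max (g τ) (g (2τ)) or `F = g τ + g (2τ)`):
`N^(2k) ≤ (4F^3)^k N`, so `F0 ≤ g τ + g (2τ)`; sum over `τ ≤ τ0`: `τ0 * F0 ≤ 2 |S|`. -/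
def TaskSum : Prop := TaskThree → TaskChain → TaskLoc → ∀ (a : ℕ → ℕ) (n N k τ0 F0 : ℕ), 1 ≤ N → 1 ≤ k →
  (10 * k * τ0 + 1) * N ≤ n → (∀ i, 1 ≤ i → i ≤ n → a i ≤ N) →
  (∀ F : ℕ, N ^ (2 * k) ≤ (4 * F ^ 3) ^ k * N → F0 ≤ F) → τ0 * F0 ≤ 2 * (S n a).ncard

end Q320.SD
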