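import Mathlib
import Pool.Agent.Q320.SD.Stmts
import Pool.Agent.Q320.SD.Stmts2

set_option autoImplicit false

open Filter Topology

namespace Q320.SD

theorem lower (h3 : TaskThree) (hC : TaskChain) (hL : TaskLoc) (hS : TaskSum) (c ε : ℝ) (hc0 : 0 ≤ c)
    (hc : c < 1) (hε : 0 < ε) : ∃ δ : ℝ, 0 < δ ∧ ∃ n₀ : ℕ, ∀ n : ℕ, n₀ ≤ n → ∀ a : ℕ → ℕ,
      (∀ i, 1 ≤ i → i ≤ n → (a i : ℝ) ≤ (n : ℝ) ^ c) →
        δ * (n : ℝ) ^ (1 - c / 3 - ε) ≤ (S n a).ncard := by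
  obtain ⟨k, hk1, hk⟩ : ∃ k : ℕ, 1 ≤ k ∧ c / (3 * k) ≤ ε := by
    obtain ⟨k, hk⟩ := exists_nat_gt (c / (3 * ε))
    refine ⟨k + 1, by omega, ?_⟩
    rw [div_lt_iff₀ (by positivity)] at hk
    push_cast
    rw [div_le_iff₀ (by positivity)]
    nlinarith
  have hkR : (1 : ℝ) ≤ k := by exact_mod_cast hk1
  have hk0 : (0 : ℝ) < k := by linarith
  have hlim : Tendsto (fun n : ℕ => (n : ℝ) ^ (1 - c)) atTop atTop :=
    (tendsto_rpow_atTop (by linarith : 0 < 1 - c)).comp tendsto_natCast_atTop_atTop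
  obtain ⟨n₀, hn₀⟩ := eventually_atTop.1 (hlim.eventually_ge_atTop (20 * (k : ℝ) + 4))
  refine ⟨1 / (80 * k), by positivity, max n₀ 1, ?_⟩
  intro n hn a ha
  have hn1 : 1 ≤ n := (le_max_right _ _).trans hn
  have hnR : (1 : ℝ) ≤ n := by exact_mod_cast hn1
  have hn0 : (0 : ℝ) < n := by linarith
  have hbig := hn₀ n ((le_max_left _ _).trans hn)
  set N : ℕ := ⌊(n : ℝ) ^ c⌋₊ with hN
  have hnc1 : 1 ≤ (n : ℝ) ^ c := Real.one_le_rpow hnR hc0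
  have hN1 : 1 ≤ N := (Nat.one_le_floor_iff _).2 hnc1
  have hNR : (1 : ℝ) ≤ N := by exact_mod_cast hN1
  have hN0 : (0 : ℝ) < N := by linarith
  have hNle : (N : ℝ) ≤ (n : ℝ) ^ c := Nat.floor_le (by positivity)
  have ha' : ∀ i, 1 ≤ i → i ≤ n → a i ≤ N := fun i h1 h2 => Nat.le_floor (ha i h1 h2)
  -- the number of blocks
  set τ0 : ℕ := (n / N - 1) / (10 * k) with hτ
  have hq1 : (n : ℝ) / N < (n / N : ℕ) + 1 := by
    rw [div_lt_iff₀ hN0]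
    have := Nat.lt_mul_div_succ n (by omega : 0 < N)
    have h2 : (n : ℝ) < ((N * (n / N + 1) : ℕ) : ℝ) := by exact_mod_cast this
    push_cast at h2 ⊢
    linarith
  have hrat : 20 * (k : ℝ) + 4 ≤ n / N := by
    refine hbig.trans ?_
    rw [Real.rpow_sub hn0, Real.rpow_one]
    gcongr
  have hqge : 1 ≤ n / N := by
    have : (0 : ℝ) < ((n / N : ℕ) : ℝ) := by linarith
    exact_mod_cast this
  have hτlow : (n : ℝ) / N / (20 * k) ≤ τ0 := by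
    have h1 : ((n / N - 1 : ℕ) : ℝ) / ((10 * k : ℕ) : ℝ) < τ0 + 1 := by
      rw [div_lt_iff₀ (by positivity)]
      have := Nat.lt_mul_div_succ (n / N - 1) (by omega : 0 < 10 * k)
      rw [← hτ] at this
      have h2 : ((n / N - 1 : ℕ) : ℝ) < ((10 * k * (τ0 + 1) : ℕ) : ℝ) := by exact_mod_cast this
      push_cast at h2 ⊢
      linarith
    rw [Nat.cast_sub hqge] at h1
    push_cast at h1
    have h2 : ((n : ℝ) / N - 2) / (10 * k) ≤ (((n / N : ℕ) : ℝ) - 1) / (10 * k) :=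
      div_le_div_of_nonneg_right (by linarith) (by positivity)
    have h3 : (n : ℝ) / N / (20 * k) + 1 ≤ ((n : ℝ) / N - 2) / (10 * k) := by
      have e1 : ((n : ℝ) / N - 2) / (10 * k) - (n : ℝ) / N / (20 * k) - 1 =
          ((n : ℝ) / N - (20 * k + 4)) / (20 * k) := by
        field_simp
        ring
      have e2 : 0 ≤ ((n : ℝ) / N - (20 * k + 4)) / (20 * k) := by
        apply div_nonneg _ (by positivity)
        linarith
      linarith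
    linarith
  have hblocks : (10 * k * τ0 + 1) * N ≤ n := by
    have h1 : 10 * k * τ0 ≤ n / N - 1 := Nat.mul_div_le _ _
    have h2 : 10 * k * τ0 + 1 ≤ n / N := by omega
    exact (Nat.mul_le_mul_right _ h2).trans (Nat.div_mul_le_self _ _)
  -- the size of the sumsets
  set e : ℝ := (2 - 1 / (k : ℝ)) / 3 with he
  set φ : ℝ := (N : ℝ) ^ e / 2 with hφ
  have hφ0 : 0 ≤ φ := by positivity
  have hF : ∀ F : ℕ, N ^ (2 * k) ≤ (4 * F ^ 3) ^ k * N → ⌈φ⌉₊ ≤ F := by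
    intro F hF
    have h1 : ((N : ℝ) ^ (2 * k)) ≤ (4 * (F : ℝ) ^ 3) ^ k * N := by exact_mod_cast hF
    have h2 : ((N : ℝ) ^ (2 - 1 / (k : ℝ))) ^ k * N = (N : ℝ) ^ (2 * k) := by
      rw [← Real.rpow_natCast _ k, ← Real.rpow_mul hN0.le, ← Real.rpow_natCast (N : ℝ) (2 * k)]
      have e1 : ((N : ℝ) ^ ((2 - 1 / (k : ℝ)) * k)) * N = (N : ℝ) ^ ((2 - 1 / (k : ℝ)) * k + 1) := by
        rw [Real.rpow_add hN0, Real.rpow_one]
      rw [e1]
      congr 1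
      push_cast
      field_simp
      ring
    rw [← h2] at h1
    have h4 : ((N : ℝ) ^ (2 - 1 / (k : ℝ))) ^ k ≤ (4 * (F : ℝ) ^ 3) ^ k := le_of_mul_le_mul_right h1 hN0
    have h5 : (N : ℝ) ^ (2 - 1 / (k : ℝ)) ≤ 4 * (F : ℝ) ^ 3 :=
      le_of_pow_le_pow_left₀ (by omega) (by positivity) h4
    have h6 : φ ^ 3 = (N : ℝ) ^ (2 - 1 / (k : ℝ)) / 8 := by
      rw [hφ, div_pow, ← Real.rpow_natCast _ 3, ← Real.rpow_mul hN0.le, he]
      norm_num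
    have h7 : φ ^ 3 ≤ (F : ℝ) ^ 3 := by
      rw [h6]
      have : 0 ≤ (F : ℝ) ^ 3 := by positivity
      linarith
    have h8 : φ ≤ F := le_of_pow_le_pow_left₀ (by norm_num) (by positivity) h7
    exact Nat.ceil_le.2 h8
  have hfin := hS h3 hC hL a n N k τ0 ⌈φ⌉₊ hN1 hk1 hblocks ha' hF
  have hfinR : (τ0 : ℝ) * φ ≤ 2 * ((S n a).ncard : ℝ) := by
    have h1 : ((τ0 * ⌈φ⌉₊ : ℕ) : ℝ) ≤ ((2 * (S n a).ncard : ℕ) : ℝ) := by exact_mod_cast hfin
    push_cast at h1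
    have h2 : (τ0 : ℝ) * φ ≤ τ0 * ((⌈φ⌉₊ : ℕ) : ℝ) := by
      have := Nat.le_ceil φ
      gcongr
    exact h2.trans h1
  have hlow : (n : ℝ) / N / (20 * k) * φ ≤ 2 * ((S n a).ncard : ℝ) :=
    (mul_le_mul_of_nonneg_right hτlow hφ0).trans hfinR
  have hexp : (n : ℝ) ^ (1 - c / 3 - ε) ≤ n / N * (N : ℝ) ^ e := by
    have e1 : (n : ℝ) / N * (N : ℝ) ^ e = n * (N : ℝ) ^ (e - 1) := by
      rw [Real.rpow_sub hN0, Real.rpow_one]
      ring
    have hk3 : 1 / (k : ℝ) ≤ 1 := by rw [div_le_one hk0]; exact hkR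
    have e2 : e - 1 ≤ 0 := by
      rw [he]
      have : 0 ≤ 1 / (k : ℝ) := by positivity
      linarith
    have e3 : ((n : ℝ) ^ c) ^ (e - 1) ≤ (N : ℝ) ^ (e - 1) :=
      Real.rpow_le_rpow_of_nonpos hN0 hNle e2
    have e4 : (n : ℝ) * ((n : ℝ) ^ c) ^ (e - 1) = (n : ℝ) ^ (1 + c * (e - 1)) := by
      rw [← Real.rpow_mul hn0.le, Real.rpow_add hn0, Real.rpow_one]
    have e5 : (n : ℝ) ^ (1 - c / 3 - ε) ≤ (n : ℝ) ^ (1 + c * (e - 1)) := by
      apply Real.rpow_le_rpow_of_exponent_le hnR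
      have : 1 + c * (e - 1) - (1 - c / 3 - ε) = ε - c / (3 * k) := by
        rw [he]
        field_simp
        ring
      linarith
    rw [e1]
    calc (n : ℝ) ^ (1 - c / 3 - ε) ≤ (n : ℝ) ^ (1 + c * (e - 1)) := e5
      _ = n * ((n : ℝ) ^ c) ^ (e - 1) := e4.symm
      _ ≤ n * (N : ℝ) ^ (e - 1) := by gcongr
  calc 1 / (80 * (k : ℝ)) * (n : ℝ) ^ (1 - c / 3 - ε) ≤ 1 / (80 * k) * (n / N * (N : ℝ) ^ e) := by gcongr
    _ = (n : ℝ) / N / (20 * k) * φ / 2 := by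
        rw [hφ]
        field_simp
        ring
    _ ≤ ((S n a).ncard : ℝ) := by linarith

end Q320.SD
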