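import Pool.Agent.Q320.SD.Stmts2

set_option autoImplicit false

open scoped Pointwise

namespace Q320.SD

private lemma card_block (N t : ℕ) : (Finset.Icc (t * N + 1) ((t + 1) * N)).card = N := by
  rw [Nat.card_Icc, add_mul, one_mul]
  omega

private lemma prod_ge (a : ℕ → ℕ) (N t : ℕ) : N ≤ (PP a N t).card * (QQ a N t).card := by
  rw [← Finset.card_product]
  conv_lhs => rw [← card_block N t]
  refine Finset.card_le_card_of_injOn (fun i : ℕ => (((a i : ℤ) + i), ((a i : ℤ) - i))) ?_ ?_
  · intro i hi
    exact Finset.mem_product.2 ⟨Finset.mem_image_of_mem _ hi, Finset.mem_image_of_mem _ hi⟩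
  · intro i _ j _ h
    have h1 := congrArg Prod.fst h
    have h2 := congrArg Prod.snd h
    simp only at h1 h2
    omega

theorem taskChain : TaskChain := by
  intro h3 a N T k F hN h1 h2
  have key : ∀ j, j ≤ k → N ^ (2 * j) * (PP a N (2 * j * T)).card ≤ (4 * F ^ 3) ^ j * N := by
    intro j
    induction j with
    | zero =>
      intro _
      have h4 : (PP a N (2 * 0 * T)).card ≤ N := by
        conv_rhs => rw [← card_block N (2 * 0 * T)]
        exact Finset.card_image_le
      simpa using h4
    | succ j ih =>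
      intro hj
      have ih' := ih (by omega)
      have h4 : N * ((PP a N ((2 * j + 2) * T)).card * (QQ a N (2 * j * T)).card) ≤ 4 * F ^ 3 :=
        h3 a N (2 * j * T) ((2 * j + 1) * T) ((2 * j + 2) * T) F hN (h1 (2 * j) (by omega))
          (h2 (2 * j) (by omega)) (h1 (2 * j + 1) (by omega))
      have h5 := prod_ge a N (2 * j * T)
      have h6 : 2 * (j + 1) * T = (2 * j + 2) * T := by ring
      rw [h6]
      set x := (PP a N (2 * j * T)).card
      set y := (QQ a N (2 * j * T)).card
      set x' := (PP a N ((2 * j + 2) * T)).card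
      calc N ^ (2 * (j + 1)) * x' = (N ^ (2 * j) * (N * x')) * N := by ring
        _ ≤ (N ^ (2 * j) * (N * x')) * (x * y) := Nat.mul_le_mul_left _ h5
        _ = (N ^ (2 * j) * x) * (N * (x' * y)) := by ring
        _ ≤ ((4 * F ^ 3) ^ j * N) * (4 * F ^ 3) := Nat.mul_le_mul ih' h4
        _ = (4 * F ^ 3) ^ (j + 1) * N := by ring
  have h7 := key k le_rfl
  have h8 : 1 ≤ (PP a N (2 * k * T)).card := by
    rw [Nat.one_le_iff_ne_zero, Finset.card_ne_zero]
    refine Finset.Nonempty.image ?_ _
    rw [← Finset.card_ne_zero, card_block]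
    omega
  calc N ^ (2 * k) = N ^ (2 * k) * 1 := (mul_one _).symm
    _ ≤ N ^ (2 * k) * (PP a N (2 * k * T)).card := Nat.mul_le_mul_left _ h8
    _ ≤ (4 * F ^ 3) ^ k * N := h7

end Q320.SD
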