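import Pool.Agent.Q320.SD.Stmts2

/-!
Sums of two blocks.
-/

open scoped Pointwise

namespace Q320.SD

theorem taskLoc : TaskLoc := by
  intro a n N t D hN hD hn ha z hz
  obtain ⟨x, hx, y, hy, rfl⟩ := Finset.mem_add.1 hz
  obtain ⟨i, hi, rfl⟩ := Finset.mem_image.1 hx
  obtain ⟨j, hj, rfl⟩ := Finset.mem_image.1 hy
  rw [Finset.mem_Icc] at hi hj
  obtain ⟨hi1, hi2⟩ := hi
  obtain ⟨hj1, hj2⟩ := hj
  have e1 : (t + 1) * N ≤ (t + D) * N := Nat.mul_le_mul_right _ (by omega)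
  have hji : j < i := by omega
  have hin : i ≤ n := hi2.trans hn
  have hai := ha i (by omega) hin
  have haj := ha j (by omega) (by omega)
  refine ⟨⟨j, i, by omega, hji, hin, by ring⟩, ?_, ?_⟩
  · have h1 : (((t + D) * N + 1 : ℕ) : ℤ) ≤ i := by exact_mod_cast hi1
    have h2 : (j : ℤ) ≤ (((t + 1) * N : ℕ) : ℤ) := by exact_mod_cast hj2
    push_cast at h1 h2
    have h3 : (0 : ℤ) ≤ a i := Int.natCast_nonneg _
    have h4 : (0 : ℤ) ≤ a j := Int.natCast_nonneg _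
    nlinarith
  · have h1 : (i : ℤ) ≤ (((t + D + 1) * N : ℕ) : ℤ) := by exact_mod_cast hi2
    have h2 : ((t * N + 1 : ℕ) : ℤ) ≤ j := by exact_mod_cast hj1
    push_cast at h1 h2
    have h3 : (a i : ℤ) ≤ N := by exact_mod_cast hai
    have h4 : (a j : ℤ) ≤ N := by exact_mod_cast haj
    nlinarith

end Q320.SD
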