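import Pool.Agent.Q320.SD.Stmts2

set_option autoImplicit false

open scoped Pointwise

namespace Q320.SD

private theorem S_finite (n : ℕ) (a : ℕ → ℕ) : (S n a).Finite := by
  refine Set.Finite.subset (Finset.finite_toSet (((Finset.Icc 1 n) ×ˢ (Finset.Icc 1 n)).image
    (fun p : ℕ × ℕ => (a p.1 : ℤ) + a p.2 + ((p.2 : ℤ) - p.1)))) ?_
  rintro z ⟨i, j, h1, h2, h3, hz⟩
  rw [Finset.coe_image]
  refine ⟨(i, j), ?_, hz.symm⟩
  rw [Finset.mem_coe, Finset.mem_product, Finset.mem_Icc, Finset.mem_Icc]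
  exact ⟨⟨h1, by omega⟩, by omega, h3⟩

private noncomputable def gg (S' : Finset ℤ) (N τ : ℕ) : ℕ :=
  (S'.filter (fun z => (5 * (τ : ℤ) - 1) * N ≤ z ∧ z ≤ (5 * (τ : ℤ) + 3) * N)).card

private theorem gg_sum (S' : Finset ℤ) (N : ℕ) (hN : 1 ≤ N) (J : Finset ℕ) :
    ∑ τ ∈ J, gg S' N τ ≤ S'.card := by
  unfold gg
  rw [← Finset.card_biUnion]
  · refine Finset.card_le_card ?_
    intro z hz
    rw [Finset.mem_biUnion] at hz
    obtain ⟨τ, -, hz⟩ := hz
    exact (Finset.mem_filter.1 hz).1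
  · have key : ∀ τ σ : ℕ, τ < σ → ∀ z : ℤ, z ≤ (5 * (τ : ℤ) + 3) * N →
        (5 * (σ : ℤ) - 1) * N ≤ z → False := by
      intro τ σ h z h1 h2
      have h3 : (τ : ℤ) + 1 ≤ σ := by exact_mod_cast h
      have h4 : (1 : ℤ) ≤ N := by exact_mod_cast hN
      nlinarith
    intro τ _ σ _ hne
    rw [Function.onFun, Finset.disjoint_left]
    intro z h1 h2
    rw [Finset.mem_filter] at h1 h2
    rcases lt_or_gt_of_ne hne with h | h
    · exact key τ σ h z h1.2.2 h2.2.1
    · exact key σ τ h z h2.2.2 h1.2.1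

theorem taskSum : TaskSum := by
  intro hThree hChain hLoc a n N k τ0 F0 hN hk hn ha hF
  set S' := (S_finite n a).toFinset with hS'
  have hcard : (S n a).ncard = S'.card := by
    rw [hS', Set.ncard_eq_toFinset_card (S n a) (S_finite n a)]
  have hloc : ∀ (t D σ : ℕ), 1 ≤ D → D = 5 * σ → (t + D + 1) * N ≤ n →
      (PP a N (t + D) + QQ a N t).card ≤ gg S' N σ := by
    intro t D σ hD hDσ h
    unfold gg
    refine Finset.card_le_card ?_
    intro z hz
    obtain ⟨h1, h2, h3⟩ := hLoc a n N t D hN hD h ha z hz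
    rw [Finset.mem_filter]
    refine ⟨by rw [hS']; simpa using h1, ?_, ?_⟩
    · rw [hDσ] at h2; push_cast at h2; exact h2
    · rw [hDσ] at h3; push_cast at h3; exact h3
  have hmain : ∀ τ ∈ Finset.Icc 1 τ0, F0 ≤ gg S' N τ + gg S' N (2 * τ) := by
    intro τ hτ
    rw [Finset.mem_Icc] at hτ
    refine hF _ ?_
    refine hChain hThree a N (5 * τ) k _ hN ?_ ?_
    · intro l hl
      have e : (l + 1) * (5 * τ) = l * (5 * τ) + 5 * τ := by ring
      rw [e]
      refine le_trans (hloc (l * (5 * τ)) (5 * τ) τ (by omega) rfl ?_) (Nat.le_add_right _ _)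
      refine le_trans (Nat.mul_le_mul_right N ?_) hn
      have h1 : l * (5 * τ) + 5 * τ = (l + 1) * (5 * τ) := by ring
      have h2 : (l + 1) * (5 * τ) ≤ (2 * k) * (5 * τ0) :=
        Nat.mul_le_mul (by omega) (by omega)
      have h3 : (2 * k) * (5 * τ0) = 10 * k * τ0 := by ring
      omega
    · intro l hl
      have e : (l + 2) * (5 * τ) = l * (5 * τ) + 10 * τ := by ring
      rw [e]
      refine le_trans (hloc (l * (5 * τ)) (10 * τ) (2 * τ) (by omega) (by ring) ?_)
        (Nat.le_add_left _ _)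
      refine le_trans (Nat.mul_le_mul_right N ?_) hn
      have h1 : l * (5 * τ) + 10 * τ = (l + 2) * (5 * τ) := by ring
      have h2 : (l + 2) * (5 * τ) ≤ (2 * k) * (5 * τ0) :=
        Nat.mul_le_mul (by omega) (by omega)
      have h3 : (2 * k) * (5 * τ0) = 10 * k * τ0 := by ring
      omega
  have h1 := Finset.sum_le_sum hmain
  rw [Finset.sum_const, Nat.card_Icc, Nat.add_sub_cancel, smul_eq_mul,
    Finset.sum_add_distrib] at h1
  have h2 := gg_sum S' N hN (Finset.Icc 1 τ0)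
  have h3 : ∑ τ ∈ Finset.Icc 1 τ0, gg S' N (2 * τ) ≤ S'.card := by
    have := gg_sum S' N hN ((Finset.Icc 1 τ0).image (fun τ => 2 * τ))
    rwa [Finset.sum_image (by intro x _ y _ h; simp only at h; omega)] at this
  rw [hcard]
  omega

end Q320.SD
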