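import Pool.Agent.Q320.SD.Stmts2

set_option autoImplicit false

open scoped Pointwise
open Finset

namespace Q320.SD

theorem three_le_sub (a : ℕ → ℕ) (N t : ℕ) : N ≤ (PP a N t - QQ a N t).card := by
  have h1 : (Finset.Icc (t * N + 1) ((t + 1) * N)).card = N := by
    rw [Nat.card_Icc]
    have : (t + 1) * N = t * N + N := by ring
    omega
  have h2 : (Finset.Icc (t * N + 1) ((t + 1) * N)).image (fun i : ℕ => (2 * i : ℤ)) ⊆
      PP a N t - QQ a N t := by
    intro z hz
    rw [Finset.mem_image] at hz
    obtain ⟨i, hi, rfl⟩ := hz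
    rw [Finset.mem_sub]
    refine ⟨(a i : ℤ) + i, Finset.mem_image.2 ⟨i, hi, rfl⟩, (a i : ℤ) - i,
      Finset.mem_image.2 ⟨i, hi, rfl⟩, by ring⟩
  have h3 := Finset.card_le_card h2
  rw [Finset.card_image_of_injective _ (fun x y h => by
    have h' : (2 * x : ℤ) = 2 * y := h
    omega), h1] at h3
  exact h3

theorem taskThree : TaskThree := by
  intro a N s t u F hN h1 h2 h3
  have hPne : (PP a N u).Nonempty := by
    rw [PP, Finset.image_nonempty, Finset.nonempty_Icc]
    have : (u + 1) * N = u * N + N := by ring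
    omega
  have hr := Finset.ruzsa_triangle_inequality_sub_add_add (PP a N t) (QQ a N s) (QQ a N t)
  have hp := Finset.pluennecke_ruzsa_inequality_nsmul_add hPne (QQ a N s ∪ QQ a N t) 2
  have hP0 : (0 : ℚ≥0) < (PP a N u).card := by exact_mod_cast hPne.card_pos
  have hB : ((PP a N u) + (QQ a N s ∪ QQ a N t)).card ≤ 2 * F := by
    rw [Finset.add_union]
    exact (Finset.card_union_le _ _).trans (by omega)
  have h4 : (QQ a N t + QQ a N s).card * (PP a N u).card ≤ (2 * F) ^ 2 := by
    have h5 : (QQ a N t + QQ a N s).card ≤ (2 • (QQ a N s ∪ QQ a N t)).card := by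
      apply Finset.card_le_card
      rw [two_nsmul]
      exact Finset.add_subset_add Finset.subset_union_right Finset.subset_union_left
    have h6 : ((QQ a N t + QQ a N s).card : ℚ≥0) * (PP a N u).card ≤
        (((PP a N u) + (QQ a N s ∪ QQ a N t)).card : ℚ≥0) ^ 2 := by
      calc ((QQ a N t + QQ a N s).card : ℚ≥0) * (PP a N u).card
          ≤ ((2 • (QQ a N s ∪ QQ a N t)).card : ℚ≥0) * (PP a N u).card := by
            gcongr
        _ ≤ (((((PP a N u) + (QQ a N s ∪ QQ a N t)).card : ℚ≥0) / (PP a N u).card) ^ 2 *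
              (PP a N u).card) * (PP a N u).card := by
            gcongr
        _ = _ := by
            field_simp
    have h7 : (QQ a N t + QQ a N s).card * (PP a N u).card ≤
        ((PP a N u) + (QQ a N s ∪ QQ a N t)).card ^ 2 := by exact_mod_cast h6
    exact h7.trans (Nat.pow_le_pow_left hB 2)
  have h8 := three_le_sub a N t
  calc N * ((PP a N u).card * (QQ a N s).card)
      ≤ (PP a N t - QQ a N t).card * ((PP a N u).card * (QQ a N s).card) :=
        Nat.mul_le_mul_right _ h8
    _ = ((PP a N t - QQ a N t).card * (QQ a N s).card) * (PP a N u).card := by ring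
    _ ≤ ((PP a N t + QQ a N s).card * (QQ a N t + QQ a N s).card) * (PP a N u).card :=
        Nat.mul_le_mul_right _ hr
    _ = (PP a N t + QQ a N s).card * ((QQ a N t + QQ a N s).card * (PP a N u).card) := by ring
    _ ≤ F * (2 * F) ^ 2 := Nat.mul_le_mul h1 h4
    _ = 4 * F ^ 3 := by ring

end Q320.SD
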